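import Mathlib

/-!
Hasse invariants of two elliptic curves with complex multiplication by the integers of
the field generated by a square root of `-7`: the character sums
`Σ_x χ(x) χ(x² + c x + d)` vanish for `(c,d) = (42,-7)` and `(21,112)` whenever `-7` is a
quadratic nonresidue modulo `p`.
-/

namespace Pool.Agent.Q280.JD

open Finset Polynomial

/-- `H_m(x,y) = Σ_j C(m,j)² x^j y^(m-j)`. -/
def H {K : Type*} [CommRing K] (m : ℕ) (x y : K) : K :=
  ∑ j ∈ range (m + 1), ((m.choose j : ℕ) : K) ^ 2 * x ^ j * y ^ (m - j)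

section ring

variable {K : Type*} [CommRing K]

lemma coeff_lin (a b : K) (m k : ℕ) (hk : k ≤ m) :
    ((C a * X + C b) ^ m).coeff k = a ^ k * b ^ (m - k) * ((m.choose k : ℕ) : K) := by
  rw [add_pow, finsetSum_coeff]
  rw [Finset.sum_eq_single k]
  · rw [mul_pow, ← C_pow, ← C_pow, ← C_eq_natCast]
    rw [show (C (a ^ k) * X ^ k * C (b ^ (m - k)) * C ((m.choose k : ℕ) : K))
      = C (a ^ k * b ^ (m - k) * ((m.choose k : ℕ) : K)) * X ^ k by
        simp only [C_mul]; ring]
    rw [coeff_C_mul, coeff_X_pow, if_pos rfl, mul_one]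
  · intro j _ hj
    rw [mul_pow, ← C_pow, ← C_pow, ← C_eq_natCast]
    rw [show (C (a ^ j) * X ^ j * C (b ^ (m - j)) * C ((m.choose j : ℕ) : K))
      = C (a ^ j * b ^ (m - j) * ((m.choose j : ℕ) : K)) * X ^ j by
        simp only [C_mul]; ring]
    rw [coeff_C_mul, coeff_X_pow, if_neg (by omega), mul_zero]
  · intro h
    exact absurd (Finset.mem_range.mpr (by omega)) h

/-- the coefficient of `X^m` in `(aX + b)^m (cX + d)^m`. -/
lemma coeff_lin_mul (a b c d : K) (m : ℕ) :
    ((C a * X + C b) ^ m * (C c * X + C d) ^ m).coeff m =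
      ∑ j ∈ range (m + 1), ((m.choose j : ℕ) : K) ^ 2 * (a * d) ^ j * (b * c) ^ (m - j) := by
  rw [coeff_mul, Finset.Nat.sum_antidiagonal_eq_sum_range_succ_mk]
  apply Finset.sum_congr rfl
  intro j hj
  have hj' : j ≤ m := by have := Finset.mem_range.mp hj; omega
  rw [coeff_lin a b m j hj', coeff_lin c d m (m - j) (by omega)]
  rw [Nat.choose_symm hj', show m - (m - j) = j by omega, mul_pow, mul_pow]
  ring

/-- `H` as a coefficient. -/
lemma H_eq_coeff (m : ℕ) (x y : K) :
    H m x y = ((X + C x) ^ m * (X + C y) ^ m).coeff m := by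
  have h := coeff_lin_mul (1 : K) y 1 x m
  simp only [C_1, one_mul, mul_one] at h
  rw [mul_comm, h]
  rfl

lemma H_comm (m : ℕ) (x y : K) : H m x y = H m y x := by
  rw [H_eq_coeff, H_eq_coeff, mul_comm]

lemma H_smul (m : ℕ) (t x y : K) : H m (t * x) (t * y) = t ^ m * H m x y := by
  unfold H
  rw [Finset.mul_sum]
  apply Finset.sum_congr rfl
  intro j hj
  have hj' : j ≤ m := by have := Finset.mem_range.mp hj; omega
  have h1 : t ^ m = t ^ j * t ^ (m - j) := by rw [← pow_add]; congr 1; omega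
  rw [mul_pow, mul_pow, h1]; ring

/-- Murphy's formula. -/
lemma H_murphy (m : ℕ) (x z : K) :
    H m x (x + z) = ∑ k ∈ range (m + 1), ((m.choose k : ℕ) : K) * (((m + k).choose k : ℕ) : K)
      * x ^ k * z ^ (m - k) := by
  rw [H_eq_coeff]
  have h1 : (X + C (x + z) : K[X]) = (X + C x) + C z := by rw [C_add, add_assoc]
  rw [h1, add_pow (X + C x) (C z) m, Finset.mul_sum, finsetSum_coeff]
  apply Finset.sum_congr rfl
  intro k hk
  have hk' : k ≤ m := by have := Finset.mem_range.mp hk; omega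
  rw [← C_pow, ← C_eq_natCast]
  rw [show (X + C x : K[X]) ^ m * ((X + C x) ^ k * C (z ^ (m - k)) * C ((m.choose k : ℕ) : K))
    = C (z ^ (m - k) * ((m.choose k : ℕ) : K)) * (X + C x) ^ (m + k) by
      rw [C_mul, pow_add]; ring]
  rw [coeff_C_mul, coeff_X_add_C_pow, show m + k - m = k by omega]
  rw [show (m + k).choose m = (m + k).choose k by
    rw [Nat.choose_symm_add]]
  ring

/-- the exact form of the quadratic transformation. -/
lemma H_quad (m : ℕ) (a b : K) :
    H m (a ^ 2) (b ^ 2) = ∑ j ∈ range (m + 1), ((m.choose j : ℕ) : K) *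
      ((((2 * j).choose j : ℕ) : K) * (-1) ^ j) * (a * b) ^ j * ((a + b) ^ 2) ^ (m - j) := by
  have h := coeff_lin_mul a (-b) (-b) a m
  have e1 : (∑ j ∈ range (m + 1), ((m.choose j : ℕ) : K) ^ 2 * (a * a) ^ j *
      (-b * -b) ^ (m - j)) = H m (a ^ 2) (b ^ 2) := by
    unfold H
    apply Finset.sum_congr rfl
    intro j _
    rw [show a * a = a ^ 2 by ring, show -b * -b = b ^ 2 by ring]
  rw [← e1, ← h, ← mul_pow]
  have e2 : ((C a * X + C (-b)) * (C (-b) * X + C a) : K[X]) =
      C (-(a * b)) * (X + C 1) ^ 2 + C ((a + b) ^ 2) * X := by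
    simp only [C_neg, C_mul, C_pow, C_add, C_1]; ring
  rw [e2, add_pow, finsetSum_coeff]
  apply Finset.sum_congr rfl
  intro j hj
  have hj' : j ≤ m := by have := Finset.mem_range.mp hj; omega
  rw [mul_pow, mul_pow, ← C_pow, ← C_pow, ← C_eq_natCast, ← pow_mul]
  rw [show (C ((-(a * b)) ^ j) * (X + C 1) ^ (2 * j) * (C (((a + b) ^ 2) ^ (m - j)) * X ^ (m - j))
      * C ((m.choose j : ℕ) : K))
    = C ((-(a * b)) ^ j * ((a + b) ^ 2) ^ (m - j) * ((m.choose j : ℕ) : K)) *
      ((X + C 1) ^ (2 * j) * X ^ (m - j)) by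
      simp only [C_mul]; ring]
  rw [coeff_C_mul, coeff_mul_X_pow', if_pos (by omega), show m - (m - j) = j by omega,
    coeff_X_add_C_pow, one_pow, one_mul]
  rw [show (-(a * b)) ^ j = (-1) ^ j * (a * b) ^ j by rw [neg_pow]]
  ring

end ring

section charp

variable {K : Type*} [Field K] (p : ℕ) [Fact p.Prime] [CharP K p] (m : ℕ)

lemma cast_ne (hm : p = 2 * m + 1) (k : ℕ) (hk : k < m) : ((k + 1 : ℕ) : K) ≠ 0 := by
  intro h
  rw [CharP.cast_eq_zero_iff K p] at h
  have := Nat.le_of_dvd (by omega) h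
  omega

lemma two_m (hm : p = 2 * m + 1) : (2 : K) * (m : K) + 1 = 0 := by
  have h : ((2 * m + 1 : ℕ) : K) = 0 := by rw [← hm]; exact CharP.cast_eq_zero K p
  push_cast at h
  exact h

lemma choose_add (hm : p = 2 * m + 1) (k : ℕ) (hk : k ≤ m) :
    (((m + k).choose k : ℕ) : K) = (-1) ^ k * ((m.choose k : ℕ) : K) := by
  induction k with
  | zero => simp
  | succ k ih =>
    have ih' := ih (by omega)
    have hne := cast_ne (K := K) p m hm k (by omega)
    apply mul_right_cancel₀ hne
    have h1 : ((m + (k + 1)).choose (k + 1) : ℕ) * (k + 1) = (m + k + 1) * (m + k).choose k := by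
      rw [← add_assoc]; exact (Nat.add_one_mul_choose_eq (m + k) k).symm
    have h2 : (m.choose (k + 1)) * (k + 1) = m.choose k * (m - k) := Nat.choose_succ_right_eq m k
    have h1' : (((m + (k + 1)).choose (k + 1) : ℕ) : K) * ((k + 1 : ℕ) : K) =
        ((m : K) + k + 1) * (((m + k).choose k : ℕ) : K) := by
      have := congrArg (fun z : ℕ => (z : K)) h1
      push_cast at this
      push_cast
      exact this
    have h2' : ((m.choose (k + 1) : ℕ) : K) * ((k + 1 : ℕ) : K) =
        ((m.choose k : ℕ) : K) * ((m : K) - k) := by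
      have := congrArg (fun z : ℕ => (z : K)) h2
      push_cast [Nat.cast_sub (show k ≤ m by omega)] at this
      push_cast
      exact this
    have h3 := two_m (K := K) p m hm
    rw [h1', ih', mul_assoc, h2', pow_succ]
    linear_combination ((-1) ^ k * ((m.choose k : ℕ) : K)) * h3

lemma central (hm : p = 2 * m + 1) (k : ℕ) (hk : k ≤ m) :
    (((2 * k).choose k : ℕ) : K) * (-1) ^ k = 4 ^ k * ((m.choose k : ℕ) : K) := by
  induction k with
  | zero => simp
  | succ k ih =>
    have ih' := ih (by omega)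
    have hne := cast_ne (K := K) p m hm k (by omega)
    apply mul_right_cancel₀ hne
    have h1 : (k + 1) * (2 * (k + 1)).choose (k + 1) = 2 * (2 * k + 1) * (2 * k).choose k :=
      Nat.succ_mul_centralBinom_succ k
    have h2 : (m.choose (k + 1)) * (k + 1) = m.choose k * (m - k) := Nat.choose_succ_right_eq m k
    have h1' : (((2 * (k + 1)).choose (k + 1) : ℕ) : K) * ((k + 1 : ℕ) : K) =
        2 * (2 * (k : K) + 1) * (((2 * k).choose k : ℕ) : K) := by
      have := congrArg (fun z : ℕ => (z : K)) h1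
      push_cast at this
      push_cast
      linear_combination this
    have h2' : ((m.choose (k + 1) : ℕ) : K) * ((k + 1 : ℕ) : K) =
        ((m.choose k : ℕ) : K) * ((m : K) - k) := by
      have := congrArg (fun z : ℕ => (z : K)) h2
      push_cast [Nat.cast_sub (show k ≤ m by omega)] at this
      push_cast
      exact this
    have h3 := two_m (K := K) p m hm
    rw [mul_assoc (4 ^ (k + 1)), h2']
    calc (((2 * (k + 1)).choose (k + 1) : ℕ) : K) * (-1) ^ (k + 1) * ((k + 1 : ℕ) : K)
        = ((((2 * (k + 1)).choose (k + 1) : ℕ) : K) * ((k + 1 : ℕ) : K)) * (-1) ^ (k + 1) := by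
          ring
      _ = (-2 * (2 * (k : K) + 1)) * ((((2 * k).choose k : ℕ) : K) * (-1) ^ k) := by
          rw [h1', pow_succ]; ring
      _ = (-2 * (2 * (k : K) + 1)) * (4 ^ k * ((m.choose k : ℕ) : K)) := by rw [ih']
      _ = _ := by
          rw [pow_succ]
          linear_combination (-2 * 4 ^ k * ((m.choose k : ℕ) : K)) * h3

/-- First transformation in characteristic `p = 2m+1`. -/
lemma H_one (hm : p = 2 * m + 1) (x y : K) : H m x y = H m (-x) (y - x) := by
  have h := H_murphy m x (y - x)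
  rw [show x + (y - x) = y by ring] at h
  rw [h]
  unfold H
  apply Finset.sum_congr rfl
  intro k hk
  have hk' : k ≤ m := by have := Finset.mem_range.mp hk; omega
  rw [choose_add p m hm k hk', neg_pow x k]
  ring

/-- Second transformation in characteristic `p = 2m+1`. -/
lemma H_two (hm : p = 2 * m + 1) (a b : K) :
    H m (4 * (a * b)) ((a + b) ^ 2) = H m (a ^ 2) (b ^ 2) := by
  rw [H_quad]
  unfold H
  apply Finset.sum_congr rfl
  intro j hj
  have hj' : j ≤ m := by have := Finset.mem_range.mp hj; omega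
  rw [central p m hm j hj', mul_pow 4]
  ring

/-- The supersingular value. -/
lemma H_zero (hm : p = 2 * m + 1) (α : K) (hα : α ^ 2 = α - 2) (hp : α ^ p = 1 - α)
    (hne : (1 - α) ≠ α) : H m (α ^ 4) 1 = 0 := by
  have h2 := H_two p m hm (α ^ 2) 1
  have e1 : (α ^ 2 + 1) ^ 2 = (1 - α) ^ 2 * 1 := by rw [hα]; ring
  have e0 : α * (1 - α) = 2 := by linear_combination -hα
  have e2 : 4 * (α ^ 2 * 1) = (1 - α) ^ 2 * α ^ 4 := by
    have : (α * (1 - α)) ^ 2 = 4 := by rw [e0]; norm_num
    rw [← this]; ring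
  have e3 : 2 * m = p - 1 := by omega
  rw [e1, e2, H_smul, ← pow_mul, e3, ← pow_mul, one_pow] at h2
  by_contra hz
  have h3 : (1 - α) ^ (p - 1) = 1 := by
    have : ((1 - α) ^ (p - 1) - 1) * H m (α ^ 4) 1 = 0 := by
      rw [sub_mul, h2]; ring
    rcases mul_eq_zero.mp this with h | h
    · exact sub_eq_zero.mp h
    · exact absurd h hz
  have h4 : (1 - α) ^ p = 1 - α := by
    have hp1 : p = (p - 1) + 1 := by have := (Fact.out : p.Prime).pos; omega
    rw [hp1, pow_succ, h3, one_mul]
  have h5 : (1 - α) ^ p = α := by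
    rw [sub_pow_char, one_pow, hp]; ring
  exact hne (h4 ▸ h5)

end charp

end Pool.Agent.Q280.JD
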