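import Mathlib
import Pool.Agent.Q280.JD.Hasse

/-!
The character sums `Σ_x χ(x) χ(x² + c x + d)` over `ZMod p` and their values for
`(c,d) = (42,-7), (21,112)`.
-/

namespace Pool.Agent.Q280.JD

open Finset Polynomial

variable (p : ℕ) [Fact p.Prime]

/-- `S(c,d) = Σ_x χ(x) χ(x² + c x + d)`. -/
noncomputable def S (c d : ZMod p) : ℤ :=
  ∑ x : ZMod p, quadraticChar (ZMod p) x * quadraticChar (ZMod p) (x ^ 2 + c * x + d)

/-- power sums over `ZMod p`. -/
lemma power_sum (m : ℕ) (hm : p = 2 * m + 1) (hm0 : 0 < m) (i : ℕ) (hi : i < 3 * m + 1) :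
    ∑ x : ZMod p, x ^ i = if i = 2 * m then (-1 : ZMod p) else 0 := by
  have hcard : Fintype.card (ZMod p) = p := ZMod.card p
  by_cases h1 : i < 2 * m
  · rw [if_neg (by omega)]
    exact FiniteField.sum_pow_lt_card_sub_one (ZMod p) i (by rw [hcard]; omega)
  · by_cases h2 : i = 2 * m
    · rw [if_pos h2, h2]
      rw [← Finset.sum_erase_add _ _ (Finset.mem_univ (0 : ZMod p))]
      rw [zero_pow (by omega), add_zero]
      rw [Finset.sum_congr rfl (g := fun _ => (1 : ZMod p))]
      · rw [Finset.sum_const, Finset.card_erase_of_mem (Finset.mem_univ _), Finset.card_univ,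
          hcard]
        have h3 : ((p - 1 + 1 : ℕ) : ZMod p) = 0 := by
          rw [show p - 1 + 1 = p by omega]; exact ZMod.natCast_self p
        push_cast at h3
        rw [nsmul_eq_mul, mul_one]
        exact eq_neg_of_add_eq_zero_left h3
      · intro x hx
        have hx0 : x ≠ 0 := Finset.ne_of_mem_erase hx
        rw [show 2 * m = p - 1 by omega]
        exact ZMod.pow_card_sub_one_eq_one hx0
    · rw [if_neg h2]
      have h3 : ∀ x : ZMod p, x ^ i = x ^ (i - 2 * m) := by
        intro x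
        have e1 : i = p + (i - 2 * m - 1) := by omega
        have e2 : i - 2 * m = 1 + (i - 2 * m - 1) := by omega
        rw [e2]
        conv_lhs => rw [e1]
        rw [pow_add, pow_add, ZMod.pow_card, pow_one]
      rw [Finset.sum_congr rfl (fun x _ => h3 x)]
      exact FiniteField.sum_pow_lt_card_sub_one (ZMod p) _ (by rw [hcard]; omega)

/-- `S(c,d)` modulo `p`. -/
lemma S_mod (m : ℕ) (hm : p = 2 * m + 1) (hm0 : 0 < m) (c d : ZMod p) :
    ((S p c d : ℤ) : ZMod p) = -(((X ^ 2 + C c * X + C d : (ZMod p)[X]) ^ m).coeff m) := by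
  have hcard : Fintype.card (ZMod p) = p := ZMod.card p
  have hchar : ringChar (ZMod p) ≠ 2 := by rw [ZMod.ringChar_zmod_n]; omega
  have hhalf : p / 2 = m := by omega
  set Q : (ZMod p)[X] := X ^ m * (X ^ 2 + C c * X + C d) ^ m with hQ
  have h1 : ((S p c d : ℤ) : ZMod p) = ∑ x : ZMod p, Q.eval x := by
    unfold S
    push_cast
    apply Finset.sum_congr rfl
    intro x _
    rw [quadraticChar_eq_pow_of_char_ne_two' hchar, quadraticChar_eq_pow_of_char_ne_two' hchar,
      hcard, hhalf, hQ]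
    simp only [eval_mul, eval_pow, eval_X, eval_add, eval_C]
  have hdeg : Q.natDegree < 3 * m + 1 := by
    have hq : (X ^ 2 + C c * X + C d : (ZMod p)[X]).natDegree ≤ 2 := by
      compute_degree
    have h2 : ((X ^ 2 + C c * X + C d : (ZMod p)[X]) ^ m).natDegree ≤ m * 2 :=
      natDegree_pow_le_of_le m hq
    have h3 : (X ^ m : (ZMod p)[X]).natDegree ≤ m := natDegree_X_pow_le m
    have h4 := natDegree_mul_le (p := (X ^ m : (ZMod p)[X]))
      (q := (X ^ 2 + C c * X + C d : (ZMod p)[X]) ^ m)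
    rw [← hQ] at h4
    omega
  rw [h1]
  rw [Finset.sum_congr rfl (fun x _ => eval_eq_sum_range' hdeg x), Finset.sum_comm]
  rw [Finset.sum_congr rfl (fun i hi => by
    rw [← Finset.mul_sum, power_sum p m hm hm0 i (Finset.mem_range.mp hi)])]
  rw [Finset.sum_eq_single (2 * m)]
  · rw [if_pos rfl, hQ, show 2 * m = m + m by ring, add_comm m m, coeff_X_pow_mul]
    ring
  · intro i _ hi
    rw [if_neg hi, mul_zero]
  · intro h
    exact absurd (Finset.mem_range.mpr (by omega)) h

lemma S_abs (c d : ZMod p) : |S p c d| < p := by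
  unfold S
  rw [← Finset.sum_erase_add _ _ (Finset.mem_univ (0 : ZMod p))]
  rw [MulChar.map_zero, zero_mul, add_zero]
  have hp := (Fact.out : p.Prime).pos
  calc |∑ x ∈ univ.erase (0 : ZMod p), quadraticChar (ZMod p) x *
        quadraticChar (ZMod p) (x ^ 2 + c * x + d)|
      ≤ ∑ x ∈ univ.erase (0 : ZMod p), |quadraticChar (ZMod p) x *
        quadraticChar (ZMod p) (x ^ 2 + c * x + d)| := Finset.abs_sum_le_sum_abs _ _
    _ ≤ ∑ x ∈ univ.erase (0 : ZMod p), 1 := by
        apply Finset.sum_le_sum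
        intro x _
        rw [abs_mul]
        have h : ∀ y : ZMod p, |quadraticChar (ZMod p) y| ≤ 1 := by
          intro y
          by_cases hy : y = 0
          · rw [hy, MulChar.map_zero]; simp
          · rcases quadraticChar_dichotomy hy with h | h <;> rw [h] <;> simp
        have h0 : ∀ y : ZMod p, 0 ≤ |quadraticChar (ZMod p) y| := fun y => abs_nonneg _
        exact mul_le_one₀ (h _) (h0 _) (h _)
    _ = ((p - 1 : ℕ) : ℤ) := by
        rw [Finset.sum_const, Finset.card_erase_of_mem (Finset.mem_univ _), Finset.card_univ,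
          ZMod.card]
        simp
    _ < p := by
        rw [Nat.cast_sub hp]; simp

lemma S_eq_zero_of_coeff (m : ℕ) (hm : p = 2 * m + 1) (hm0 : 0 < m) (c d : ZMod p)
    (h : (((X ^ 2 + C c * X + C d : (ZMod p)[X]) ^ m).coeff m) = 0) : S p c d = 0 := by
  have h1 := S_mod p m hm hm0 c d
  rw [h, neg_zero, ZMod.intCast_zmod_eq_zero_iff_dvd] at h1
  exact Int.eq_zero_of_abs_lt_dvd h1 (S_abs p c d)

/-- The two supersingular coefficients over an algebraically closed field. -/
theorem coeff_zero {K : Type*} [Field K] [CharP K p] [IsAlgClosed K] [Algebra (ZMod p) K]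
    (m : ℕ) (hm : p = 2 * m + 1) (hm0 : 0 < m) (hE : (-7 : K) ^ m = -1) :
    (((X ^ 2 + C 21 * X + C 112 : (ZMod p)[X]) ^ m).coeff m) = 0 ∧
    (((X ^ 2 + C 42 * X + C (-7) : (ZMod p)[X]) ^ m).coeff m) = 0 := by
  have h2K : (2 : K) ≠ 0 := by
    have h : ((2 : ℕ) : K) ≠ 0 := by
      intro h
      rw [CharP.cast_eq_zero_iff K p] at h
      have := Nat.le_of_dvd (by omega) h
      omega
    exact_mod_cast h
  obtain ⟨δ, hδ⟩ := IsAlgClosed.exists_pow_nat_eq (-7 : K) (n := 2) (by norm_num)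
  have hpow : ∀ x : K, x ^ p = (x ^ 2) ^ m * x := by
    intro x
    rw [← pow_mul, ← pow_succ]
    congr 1
  have hδp : δ ^ p = -δ := by
    rw [hpow, hδ, hE]; ring
  have hδ0 : δ ≠ 0 := by
    intro h
    rw [h] at hδ
    have h7' : (-7 : K) = 0 := by rw [← hδ]; ring
    rw [h7', zero_pow (by omega)] at hE
    have : (1 : K) = 0 := by linear_combination hE
    exact one_ne_zero this
  have h2p : (2 : K) ^ p = 2 := by
    have h := ZMod.pow_card (2 : ZMod p)
    have h' := congrArg (algebraMap (ZMod p) K) h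
    simp only [map_pow, map_ofNat] at h'
    exact h'
  have key : ∀ ε : K, ε ^ 2 = -7 → ε ^ p = -ε → ε ≠ 0 →
      H m (((1 + ε) / 2) ^ 4) 1 = 0 := by
    intro ε h1 h2 h3
    apply H_zero p m hm
    · field_simp; linear_combination h1
    · rw [div_pow, h2p, add_pow_char, one_pow, h2]
      field_simp; ring
    · intro h
      field_simp at h
      apply h3
      have : 2 * ε = 0 := by linear_combination -h
      rcases mul_eq_zero.mp this with h | h
      · exact absurd h h2K
      · exact h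
  have k1 := key δ hδ hδp hδ0
  have k2 := key (-δ) (by rw [neg_sq, hδ]) (by
    rw [hpow, neg_sq, hδ, hE]; ring) (neg_ne_zero.mpr hδ0)
  set α : K := (1 + δ) / 2 with hα
  set β : K := (1 + -δ) / 2 with hβ
  -- `(r₁, r₂)`
  have hr : H m ((21 + δ) / 2) ((21 - δ) / 2) = 0 := by
    have e1 : (21 + δ) / 2 = δ * α ^ 4 := by
      rw [hα]; field_simp
      linear_combination (-δ ^ 3 - 4 * δ ^ 2 + δ + 24) * hδ
    have e2 : (21 - δ) / 2 = δ * (-(β ^ 4)) := by
      rw [hβ]; field_simp
      linear_combination (δ ^ 3 - 4 * δ ^ 2 - δ + 24) * hδ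
    rw [e1, e2, H_smul]
    have h1 := H_one p m hm (β ^ 4) (1 : K)
    have e3 : 1 - β ^ 4 = α ^ 4 := by
      rw [hα, hβ]; field_simp
      linear_combination (-2 * δ ^ 2 + 2) * hδ
    rw [k2, e3] at h1
    rw [H_comm, ← h1, mul_zero]
  have hcoef : ∀ (c d : ZMod p) (r₁ r₂ : K), r₁ + r₂ = algebraMap (ZMod p) K c →
      r₁ * r₂ = algebraMap (ZMod p) K d → H m r₁ r₂ = 0 →
      (((X ^ 2 + C c * X + C d : (ZMod p)[X]) ^ m).coeff m) = 0 := by
    intro c d r₁ r₂ h1 h2 h3
    apply (algebraMap (ZMod p) K).injective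
    rw [map_zero, ← coeff_map, Polynomial.map_pow]
    simp only [Polynomial.map_add, Polynomial.map_mul, Polynomial.map_pow, map_X, map_C]
    rw [← h1, ← h2]
    rw [show (X ^ 2 + C (r₁ + r₂) * X + C (r₁ * r₂) : K[X]) = (X + C r₁) * (X + C r₂) by
      simp only [C_add, C_mul]; ring]
    rw [mul_pow, ← H_eq_coeff, h3]
  constructor
  · apply hcoef 21 112 ((21 + δ) / 2) ((21 - δ) / 2) _ _ hr
    · rw [map_ofNat]; field_simp; ring
    · rw [map_ofNat]; field_simp; linear_combination -hδ
  · obtain ⟨u, hu⟩ := IsAlgClosed.exists_pow_nat_eq ((21 + δ) / 2 : K) (n := 2) (by norm_num)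
    obtain ⟨v, hv⟩ := IsAlgClosed.exists_pow_nat_eq ((21 - δ) / 2 : K) (n := 2) (by norm_num)
    apply hcoef 42 (-7) ((u - v) ^ 2) ((u + v) ^ 2)
    · rw [map_ofNat]
      have : (u - v) ^ 2 + (u + v) ^ 2 = 2 * (u ^ 2 + v ^ 2) := by ring
      rw [this, hu, hv]; field_simp; ring
    · rw [map_neg, map_ofNat]
      have : (u - v) ^ 2 * (u + v) ^ 2 = (u ^ 2 - v ^ 2) ^ 2 := by ring
      rw [this, hu, hv, ← hδ]; field_simp; ring
    · rw [H_one p m hm, show (u + v) ^ 2 - (u - v) ^ 2 = 4 * (u * v) by ring, H_comm]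
      have h := H_two p m hm u (-v)
      rw [show 4 * (u * -v) = (-1) * (4 * (u * v)) by ring,
        show (u + -v) ^ 2 = (-1) * (-(u - v) ^ 2) by ring, H_smul, neg_sq, hu, hv, hr] at h
      rcases mul_eq_zero.mp h with h | h
      · exact absurd h (pow_ne_zero _ (by norm_num))
      · exact h

/-- The two supersingular sums. -/
theorem S_zero (hp2 : p ≠ 2) (h7 : quadraticChar (ZMod p) (-7) = -1) :
    S p 21 112 = 0 ∧ S p 42 (-7) = 0 := by
  obtain ⟨m, hm⟩ : ∃ m, p = 2 * m + 1 := by
    rcases (Fact.out : p.Prime).eq_two_or_odd' with h | h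
    · exact absurd h hp2
    · exact h
  have hm0 : 0 < m := by
    have := (Fact.out : p.Prime).two_le
    omega
  have hch : CharP (AlgebraicClosure (ZMod p)) p :=
    charP_of_injective_algebraMap (algebraMap (ZMod p) (AlgebraicClosure (ZMod p))).injective p
  -- Euler's criterion
  have hE : (-7 : AlgebraicClosure (ZMod p)) ^ m = -1 := by
    have hchar : ringChar (ZMod p) ≠ 2 := by rw [ZMod.ringChar_zmod_n]; omega
    have h := quadraticChar_eq_pow_of_char_ne_two' hchar (-7 : ZMod p)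
    rw [h7, ZMod.card, show p / 2 = m by omega] at h
    have h' := congrArg (algebraMap (ZMod p) (AlgebraicClosure (ZMod p))) h
    simp only [map_pow, map_neg, map_ofNat] at h'
    rw [← h']
    push_cast
    simp
  have h := coeff_zero (K := AlgebraicClosure (ZMod p)) p m hm hm0 hE
  exact ⟨S_eq_zero_of_coeff p m hm hm0 _ _ h.1, S_eq_zero_of_coeff p m hm hm0 _ _ h.2⟩

end Pool.Agent.Q280.JD
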