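import Mathlib
import Pool.Agent.Helper848.SqDet

/-!
Principal minors of integer circulant matrices of odd order with zero row sums.
-/

namespace Pool.Agent.Q280.JD

open Finset Matrix Equiv

section adj

variable {n : Type*} [Fintype n] [DecidableEq n]

/-- For a matrix with zero row sums the adjugate does not depend on the row index. -/
lemma adj_row (A : Matrix n n ℤ) (hr : ∀ i, ∑ j, A i j = 0) (i i' j : n) :
    A.adjugate i j = A.adjugate i' j := by
  rw [adjugate_apply, adjugate_apply]
  have h : (A.updateRow j (Pi.single i 1 - Pi.single i' 1)).det = 0 := by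
    apply Matrix.exists_mulVec_eq_zero_iff.mp
    refine ⟨fun _ => 1, ?_, ?_⟩
    · intro h
      have := congrFun h i
      simp at this
    · funext k
      rw [mulVec, dotProduct, Pi.zero_apply]
      simp only [mul_one]
      by_cases hk : k = j
      · subst hk
        simp [Finset.sum_sub_distrib]
      · simp only [updateRow_ne hk]
        exact hr k
  have h2 := det_updateRow_add A j (Pi.single i 1 - Pi.single i' 1) (Pi.single i' 1)
  rw [sub_add_cancel, h, zero_add] at h2
  exact h2

lemma adj_const (A : Matrix n n ℤ) (hr : ∀ i, ∑ j, A i j = 0) (hc : ∀ j, ∑ i, A i j = 0)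
    (i i' j j' : n) : A.adjugate i j = A.adjugate i' j' := by
  rw [adj_row A hr i i' j]
  have h := adj_row Aᵀ hc j j' i'
  rw [← adjugate_transpose] at h
  exact h

/-- permuting rows. -/
lemma adj_perm (A : Matrix n n ℤ) (ρ : Perm n) (i j : n) :
    (A.submatrix ρ id).adjugate i j = (Perm.sign ρ : ℤ) * A.adjugate i (ρ j) := by
  rw [adjugate_apply, adjugate_apply]
  have h := updateRow_submatrix_equiv A j (Pi.single i 1) ρ (Equiv.refl n)
  rw [Equiv.coe_refl] at h
  rw [h]
  rw [det_permute]
  rfl

end adj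

section odd

variable (M : ℕ)

lemma sum_sub_left {G : Type*} [AddCommGroup G] [Fintype G] (v : G → ℤ) (i : G) :
    ∑ j, v (i - j) = ∑ x, v x := by
  have := Equiv.sum_comp (Equiv.subLeft i) v
  exact this

lemma sum_sub_right {G : Type*} [AddCommGroup G] [Fintype G] (v : G → ℤ) (j : G) :
    ∑ i, v (i - j) = ∑ x, v x := by
  have := Equiv.sum_comp (Equiv.subRight j) v
  exact this

lemma half {G : Type*} [AddCommGroup G] [Fintype G] (hG : Fintype.card G = M + M + 1) (τ : G) :
    ∃ u : G, u + u = τ := by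
  refine ⟨(M + 1) • τ, ?_⟩
  rw [← add_nsmul, show M + 1 + (M + 1) = Fintype.card G + 1 by omega, add_nsmul,
    card_nsmul_eq_zero, one_nsmul, zero_add]

lemma sign_shift {G : Type*} [AddCommGroup G] [Fintype G] [DecidableEq G]
    (hG : Fintype.card G = M + M + 1) (τ : G) : Perm.sign (Equiv.addRight τ) = 1 := by
  obtain ⟨u, hu⟩ := half M hG τ
  have h : Equiv.addRight τ = Equiv.addRight u * Equiv.addRight u := by
    ext x
    simp [← hu, add_assoc]
  rw [h, Perm.sign_mul, Int.units_mul_self]

/-- the principal minor of a circulant matrix. -/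
def cm (v : Fin (M + M + 1) → ℤ) : ℤ := ((circulant v).submatrix Fin.succ Fin.succ).det

lemma cm_eq (v : Fin (M + M + 1) → ℤ) : cm M v = (circulant v).adjugate 0 0 := by
  rw [adjugate_fin_succ_eq_det_submatrix]
  simp only [cm]
  simp [Fin.succAbove_zero]

/-- The minor is invariant under shifts. -/
lemma cm_shift (v : Fin (M + M + 1) → ℤ) (hv : ∑ x, v x = 0) (σ : Fin (M + M + 1)) :
    cm M (fun x => v (x + σ)) = cm M v := by
  rw [cm_eq, cm_eq]
  have h : circulant (fun x => v (x + σ)) = (circulant v).submatrix (Equiv.addRight σ) id := by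
    ext i j
    simp only [circulant_apply, submatrix_apply, coe_addRight, id_eq]
    congr 1
    rw [sub_add_eq_add_sub]
  rw [h, adj_perm, sign_shift M (Fintype.card_fin _)]
  rw [Units.val_one, one_mul]
  apply adj_const
  · intro i; simp only [circulant_apply]; rw [sum_sub_left, hv]
  · intro j; simp only [circulant_apply]; rw [sum_sub_right, hv]

/-- antisymmetric case -/
theorem cm_skew (v : Fin (M + M + 1) → ℤ) (hv : ∑ x, v x = 0) (τ : Fin (M + M + 1))
    (h : ∀ x, v (τ - x) = -v x) : IsSquare (cm M v) := by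
  obtain ⟨σ, hσ⟩ := half M (Fintype.card_fin _) τ
  rw [← cm_shift M v hv σ]
  unfold cm
  apply Pool.Agent.Helper848.SqDet.isSquare_int _ 0
  intro i j
  simp only [submatrix_apply, circulant_apply, Pi.zero_apply, mul_zero]
  have h1 := h (i.succ - j.succ + σ)
  rw [← hσ, show σ + σ - (i.succ - j.succ + σ) = j.succ - i.succ + σ by abel] at h1
  rw [h1]; ring

/-- the points `1, ..., M` of the cyclic group. -/
def cp (k : Fin M) : Fin (M + M + 1) := ⟨k + 1, by omega⟩

lemma cp_inj {j k : Fin M} (h : cp M j = cp M k) : j = k := by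
  have := congrArg Fin.val h
  simp only [cp] at this
  exact Fin.ext (by omega)

lemma val_neg_cp (k : Fin M) : (-cp M k).val = M + M - k := by
  rw [Fin.val_neg]
  have h1 : cp M k ≠ 0 := by
    intro h
    have := congrArg Fin.val h
    simp [cp] at this
  rw [if_neg h1]
  simp only [cp]
  omega

lemma cp_ne_neg (j k : Fin M) : cp M j ≠ -cp M k := by
  intro h
  have := congrArg Fin.val h
  rw [val_neg_cp] at this
  simp only [cp] at this
  omega

lemma cp_ne_zero (j : Fin M) : cp M j ≠ 0 := by
  intro h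
  have := congrArg Fin.val h
  simp [cp] at this

/-- every element is `0`, `cp k` or `-cp k`. -/
lemma cases_cp (x : Fin (M + M + 1)) : x = 0 ∨ (∃ k, x = cp M k) ∨ (∃ k, x = -cp M k) := by
  by_cases h0 : x = 0
  · exact Or.inl h0
  · right
    have hx : x.val ≠ 0 := fun h => h0 (Fin.ext h)
    by_cases h1 : x.val ≤ M
    · left
      exact ⟨⟨x.val - 1, by omega⟩, Fin.ext (by simp only [cp]; omega)⟩
    · right
      refine ⟨⟨M + M - x.val, by omega⟩, Fin.ext ?_⟩
      rw [val_neg_cp]
      simp only
      omega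

/-- the folding equivalence. -/
def fold : Fin M ⊕ Fin M ≃ Fin (M + M) :=
  (Equiv.sumCongr (Equiv.refl _) Fin.revPerm).trans finSumFinEquiv

lemma fold_inl (k : Fin M) : (fold M (Sum.inl k)).succ = cp M k := by
  apply Fin.ext
  simp [fold, cp]

lemma fold_inr (k : Fin M) : (fold M (Sum.inr k)).succ = -cp M k := by
  apply Fin.ext
  rw [val_neg_cp]
  simp only [fold, Equiv.trans_apply, Equiv.sumCongr_apply, Sum.map_inr, Fin.revPerm_apply,
    finSumFinEquiv_apply_right, Fin.val_succ, Fin.val_natAdd, Fin.val_rev]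
  omega

/-- sums over the group. -/
lemma sum_fold (F : Fin (M + M + 1) → ℤ) :
    ∑ x, F x = F 0 + ∑ k : Fin M, (F (cp M k) + F (-cp M k)) := by
  rw [Fin.sum_univ_succ, ← Equiv.sum_comp (fold M) (fun i => F i.succ), Fintype.sum_sum_type,
    Finset.sum_add_distrib]
  simp only [fold_inl, fold_inr]

/-- block determinants -/
lemma det_sym_blocks {ι : Type*} [Fintype ι] [DecidableEq ι] (A B : Matrix ι ι ℤ) :
    (fromBlocks A B B A).det = (A + B).det * (A - B).det := by
  have h : fromBlocks 1 1 0 1 * fromBlocks A B B A * fromBlocks 1 (-1) 0 1 =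
      fromBlocks (A + B) 0 B (A - B) := by
    rw [fromBlocks_multiply, fromBlocks_multiply]
    congr 1 <;> simp <;> abel
  have h2 := congrArg det h
  rw [det_mul, det_mul, det_fromBlocks_zero₂₁, det_fromBlocks_zero₂₁, det_fromBlocks_zero₁₂] at h2
  simpa using h2

/-- `h(j-k) + h(j+k)` -/
def CC (h : Fin (M + M + 1) → ℤ) : Matrix (Fin M) (Fin M) ℤ :=
  of fun j k => h (cp M j - cp M k) + h (cp M j + cp M k)

/-- `h(j-k) - h(j+k)` -/
def DD (h : Fin (M + M + 1) → ℤ) : Matrix (Fin M) (Fin M) ℤ :=
  of fun j k => h (cp M j - cp M k) - h (cp M j + cp M k)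

lemma cm_split (h : Fin (M + M + 1) → ℤ) (he : ∀ x, h (-x) = h x) :
    cm M h = (CC M h).det * (DD M h).det := by
  unfold cm
  rw [← det_submatrix_equiv_self (fold M)]
  have h1 : ((circulant h).submatrix Fin.succ Fin.succ).submatrix (fold M) (fold M) =
      fromBlocks (of fun j k => h (cp M j - cp M k)) (of fun j k => h (cp M j + cp M k))
        (of fun j k => h (cp M j + cp M k)) (of fun j k => h (cp M j - cp M k)) := by
    ext a b
    rcases a with a | a <;> rcases b with b | b
    · simp only [submatrix_apply, circulant_apply, fromBlocks_apply₁₁, of_apply, fold_inl]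
    · simp only [submatrix_apply, circulant_apply, fromBlocks_apply₁₂, of_apply, fold_inl,
        fold_inr, sub_neg_eq_add]
    · simp only [submatrix_apply, circulant_apply, fromBlocks_apply₂₁, of_apply, fold_inl,
        fold_inr]
      rw [← he]; congr 1; abel
    · simp only [submatrix_apply, circulant_apply, fromBlocks_apply₂₂, of_apply, fold_inr]
      rw [← he]; congr 1; abel
  rw [h1, det_sym_blocks]
  rfl

/-- point masses -/
def ep (k : Fin M) (x : Fin (M + M + 1)) : ℤ :=
  (if x = cp M k then 1 else 0) + (if x = -cp M k then 1 else 0)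

lemma ep_zero (k : Fin M) : ep M k 0 = 0 := by
  unfold ep
  rw [if_neg (cp_ne_zero M k).symm, if_neg]
  · rfl
  · intro h
    exact cp_ne_zero M k (neg_eq_zero.mp h.symm)

lemma ep_neg (k : Fin M) (x : Fin (M + M + 1)) : ep M k (-x) = ep M k x := by
  unfold ep
  rw [add_comm]
  congr 1
  · simp only [neg_inj]
  · simp only [neg_eq_iff_eq_neg]

lemma ep_cp (j k : Fin M) : ep M k (cp M j) = if j = k then 1 else 0 := by
  unfold ep
  rw [if_neg (cp_ne_neg M j k), add_zero]
  by_cases h : j = k
  · rw [h, if_pos rfl, if_pos rfl]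
  · rw [if_neg h, if_neg (fun h' => h (cp_inj M h'))]

/-- reproducing property -/
lemma ep_sum (β : Fin (M + M + 1) → ℤ) (h0 : β 0 = 0) (he : ∀ x, β (-x) = β x)
    (x : Fin (M + M + 1)) : ∑ i : Fin M, ep M i x * β (cp M i) = β x := by
  have key : ∀ k : Fin M, ∑ i : Fin M, ep M i (cp M k) * β (cp M i) = β (cp M k) := by
    intro k
    rw [Finset.sum_eq_single k]
    · rw [ep_cp, if_pos rfl, one_mul]
    · intro i _ hi
      rw [ep_cp, if_neg (fun h => hi h.symm), zero_mul]
    · intro h; exact absurd (Finset.mem_univ _) h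
  rcases cases_cp M x with rfl | ⟨k, rfl⟩ | ⟨k, rfl⟩
  · rw [h0]
    apply Finset.sum_eq_zero
    intro i _
    rw [ep_zero, zero_mul]
  · exact key k
  · rw [he]
    simp only [ep_neg]
    exact key k

lemma ep_total (k : Fin M) (γ : Fin (M + M + 1) → ℤ) :
    ∑ x, γ x * ep M k x = γ (cp M k) + γ (-cp M k) := by
  unfold ep
  simp [mul_add, Finset.sum_add_distrib]

/-- the difference matrix -/
def NN : Matrix (Fin M) (Fin M) ℤ :=
  of fun j k => ep M k (cp M j + 1) - ep M k (cp M j - 1)

/-- a function with `φ(z+2) = φ(z)` and `φ(0) = 0` vanishes. -/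
lemma two_periodic (φ : Fin (M + M + 1) → ℤ) (h0 : φ 0 = 0) (h : ∀ z, φ (z + 1) = φ (z - 1))
    (z : Fin (M + M + 1)) : φ z = 0 := by
  have h1 : ∀ t : ℕ, φ (t • ((1 : Fin (M + M + 1)) + 1)) = 0 := by
    intro t
    induction t with
    | zero => rw [zero_nsmul]; exact h0
    | succ t ih =>
      rw [add_nsmul, one_nsmul, ← add_assoc, h, add_sub_cancel_right]
      exact ih
  obtain ⟨u, hu⟩ := half M (Fintype.card_fin _) z
  have h2 : u.val • (1 : Fin (M + M + 1)) = u := by
    have h4 : ∀ (t : ℕ) (ht : t < M + M + 1), t • (1 : Fin (M + M + 1)) = ⟨t, ht⟩ := by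
      intro t
      induction t with
      | zero => intro ht; rw [zero_nsmul]; rfl
      | succ t ih =>
        intro ht
        rw [add_nsmul, one_nsmul, ih (by omega)]
        apply Fin.ext
        rw [Fin.val_add]
        have h5 : ((1 : Fin (M + M + 1)) : ℕ) = 1 % (M + M + 1) := rfl
        rw [h5, Nat.add_mod_mod, Nat.mod_eq_of_lt ht]
    exact h4 u.val u.2
  rw [← hu]
  have h3 := h1 u.val
  rw [nsmul_add, h2] at h3
  exact h3

lemma NN_det : (NN M).det ≠ 0 := by
  intro hdet
  obtain ⟨x, hx0, hx⟩ := Matrix.exists_mulVec_eq_zero_iff.mpr hdet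
  let φ : Fin (M + M + 1) → ℤ := fun z => ∑ k, ep M k z * x k
  have hφ0 : φ 0 = 0 := by
    apply Finset.sum_eq_zero
    intro k _
    rw [ep_zero, zero_mul]
  have hφe : ∀ z, φ (-z) = φ z := by
    intro z
    apply Finset.sum_congr rfl
    intro k _
    rw [ep_neg]
  have h1 : ∀ j : Fin M, φ (cp M j + 1) = φ (cp M j - 1) := by
    intro j
    have h2 := congrFun hx j
    rw [mulVec, dotProduct, Pi.zero_apply] at h2
    simp only [NN, of_apply, sub_mul, Finset.sum_sub_distrib] at h2
    exact sub_eq_zero.mp h2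
  have h2 : ∀ z, φ (z + 1) = φ (z - 1) := by
    intro z
    rcases cases_cp M z with rfl | ⟨k, rfl⟩ | ⟨k, rfl⟩
    · rw [zero_add, zero_sub, hφe]
    · exact h1 k
    · have e1 : -cp M k + 1 = -(cp M k - 1) := by abel
      have e2 : -cp M k - 1 = -(cp M k + 1) := by abel
      rw [e1, e2, hφe, hφe]
      exact (h1 k).symm
  apply hx0
  funext k
  have h3 := two_periodic M φ hφ0 h2 (cp M k)
  simp only [φ] at h3
  rw [Finset.sum_eq_single k] at h3
  · rw [ep_cp, if_pos rfl, one_mul] at h3
    exact h3
  · intro i _ hi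
    rw [ep_cp, if_neg (fun h => hi h.symm), zero_mul]
  · intro h; exact absurd (Finset.mem_univ _) h

/-- the quotient matrix -/
def BB (h : Fin (M + M + 1) → ℤ) : Matrix (Fin M) (Fin M) ℤ :=
  of fun j k => h (cp M j - cp M k) + h (cp M j + cp M k) - 2 * h (cp M k)

lemma BB_eq (h : Fin (M + M + 1) → ℤ) (he : ∀ x, h (-x) = h x) (hs : ∑ x, h x = 0) :
    BB M h = (1 + replicateCol Unit (fun _ : Fin M => (2 : ℤ)) *
      replicateRow Unit (fun _ : Fin M => (1 : ℤ))) * CC M h := by
  rw [add_mul, one_mul, Matrix.mul_assoc]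
  ext j k
  rw [Matrix.add_apply, mul_apply]
  simp only [replicateCol_apply, mul_apply, replicateRow_apply, BB, CC, of_apply, one_mul,
    Finset.univ_unique, Finset.sum_singleton]
  have h1 : ∑ i : Fin M, (h (cp M i - cp M k) + h (cp M i + cp M k)) = -h (cp M k) := by
    have h2 := sum_fold M (fun x => h (x - cp M k))
    rw [sum_sub_right, hs] at h2
    have h3 : ∀ i : Fin M, h (-cp M i - cp M k) = h (cp M i + cp M k) := by
      intro i
      rw [← he]; congr 1; abel
    simp only [h3, zero_sub, he] at h2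
    linarith
  rw [h1]; ring

lemma det_BB (h : Fin (M + M + 1) → ℤ) (he : ∀ x, h (-x) = h x) (hs : ∑ x, h x = 0) :
    (BB M h).det = (2 * M + 1) * (CC M h).det := by
  rw [BB_eq M h he hs, det_mul, det_one_add_replicateCol_mul_replicateRow]
  congr 1
  simp [dotProduct]
  ring

lemma intertwine (h : Fin (M + M + 1) → ℤ) (he : ∀ x, h (-x) = h x) :
    NN M * BB M h = DD M h * NN M := by
  ext j k
  rw [mul_apply, mul_apply]
  set y := cp M j with hy
  -- left-hand side
  have hL : ∑ i, NN M j i * BB M h i k =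
      (h (y + 1 - cp M k) + h (y + 1 + cp M k) - 2 * h (cp M k)) -
      (h (y - 1 - cp M k) + h (y - 1 + cp M k) - 2 * h (cp M k)) := by
    let β : Fin (M + M + 1) → ℤ := fun x => h (x - cp M k) + h (x + cp M k) - 2 * h (cp M k)
    have hβ0 : β 0 = 0 := by
      simp only [β, zero_sub, zero_add, he]; ring
    have hβe : ∀ x, β (-x) = β x := by
      intro x
      simp only [β]
      rw [show -x - cp M k = -(x + cp M k) by abel, show -x + cp M k = -(x - cp M k) by abel,
        he, he]
      ring
    have h1 := ep_sum M β hβ0 hβe (y + 1)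
    have h2 := ep_sum M β hβ0 hβe (y - 1)
    simp only [NN, BB, of_apply, sub_mul, Finset.sum_sub_distrib]
    rw [← hy]
    exact congrArg₂ (· - ·) h1 h2
  -- right-hand side
  have hR : 2 * ∑ i, DD M h j i * NN M i k =
      2 * ((h (y + 1 - cp M k) + h (y + 1 + cp M k)) -
      (h (y - 1 - cp M k) + h (y - 1 + cp M k))) := by
    let γ : Fin (M + M + 1) → ℤ := fun x => h (y - x) - h (y + x)
    have hγo : ∀ x, γ (-x) = -γ x := by
      intro x
      simp only [γ, sub_neg_eq_add]
      rw [← sub_eq_add_neg]; ring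
    let F : Fin (M + M + 1) → ℤ := fun x => γ x * (ep M k (x + 1) - ep M k (x - 1))
    have hFe : ∀ x, F (-x) = F x := by
      intro x
      simp only [F]
      rw [hγo, show -x + 1 = -(x - 1) by abel, show -x - 1 = -(x + 1) by abel, ep_neg, ep_neg]
      ring
    have hF0 : F 0 = 0 := by
      simp only [F, γ, sub_zero, add_zero, sub_self, zero_mul]
    have h1 := sum_fold M F
    simp only [hFe, hF0, zero_add] at h1
    have h2 : ∑ i, DD M h j i * NN M i k = ∑ i : Fin M, F (cp M i) := by
      apply Finset.sum_congr rfl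
      intro i _
      simp only [DD, NN, of_apply, F, γ]
      rw [hy]
    rw [h2, Finset.mul_sum]
    have h3 : ∑ i : Fin M, 2 * F (cp M i) = ∑ x, F x := by
      rw [h1]
      apply Finset.sum_congr rfl
      intro i _
      ring
    rw [h3]
    simp only [F, mul_sub, Finset.sum_sub_distrib]
    have h4 : ∑ x, γ x * ep M k (x + 1) = γ (cp M k - 1) + γ (-cp M k - 1) := by
      have h5 := Equiv.sum_comp (Equiv.addRight (1 : Fin (M + M + 1)))
        (fun x => γ (x - 1) * ep M k x)
      simp only [coe_addRight, add_sub_cancel_right] at h5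
      rw [h5, ep_total M k (fun x => γ (x - 1))]
    have h6 : ∑ x, γ x * ep M k (x - 1) = γ (cp M k + 1) + γ (-cp M k + 1) := by
      have h5 := Equiv.sum_comp (Equiv.subRight (1 : Fin (M + M + 1)))
        (fun x => γ (x + 1) * ep M k x)
      simp only [subRight_apply, sub_add_cancel] at h5
      rw [h5, ep_total M k (fun x => γ (x + 1))]
    rw [h4, h6]
    rw [show -cp M k - 1 = -(cp M k + 1) by abel, show -cp M k + 1 = -(cp M k - 1) by abel,
      hγo, hγo]
    simp only [γ]
    rw [show y - (cp M k - 1) = y + 1 - cp M k by abel,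
      show y + (cp M k - 1) = y - 1 + cp M k by abel,
      show y - (cp M k + 1) = y - 1 - cp M k by abel,
      show y + (cp M k + 1) = y + 1 + cp M k by abel]
    ring
  rw [hL]
  linarith

/-- symmetric case -/
theorem cm_sym (v : Fin (M + M + 1) → ℤ) (hv : ∑ x, v x = 0) (τ : Fin (M + M + 1))
    (h : ∀ x, v (τ - x) = v x) : ∃ c : ℤ, cm M v = (2 * M + 1) * c ^ 2 := by
  obtain ⟨σ, hσ⟩ := half M (Fintype.card_fin _) τ
  rw [← cm_shift M v hv σ]
  set w : Fin (M + M + 1) → ℤ := fun x => v (x + σ) with hw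
  have hwe : ∀ x, w (-x) = w x := by
    intro x
    simp only [hw]
    have h1 := h (x + σ)
    rw [← hσ, show σ + σ - (x + σ) = -x + σ by abel] at h1
    exact h1
  have hws : ∑ x, w x = 0 := by
    rw [← hv]
    exact Equiv.sum_comp (Equiv.addRight σ) v
  have h1 := congrArg det (intertwine M w hwe)
  rw [det_mul, det_mul, det_BB M w hwe hws, mul_comm] at h1
  have h2 := mul_right_cancel₀ (NN_det M) h1
  refine ⟨(CC M w).det, ?_⟩
  rw [cm_split M w hwe, ← h2]
  ring

end odd

end Pool.Agent.Q280.JD
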