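import Mathlib
import Pool.Agent.Q280.JD.Circ

/-!
Principal minors of integer circulant matrices of even order `2M+2` with the antisymmetry
`V(1-i) = -V(i)`.
-/

namespace Pool.Agent.Q280.JD.Ev

open Finset Matrix Equiv

variable (M : ℕ)

/-- the cyclic group of order `2M+2` -/
abbrev G := Fin (M + M + 1 + 1)

def cq (k : Fin M) : G M := ⟨k + 1, by omega⟩

def hf : G M := ⟨M + 1, by omega⟩

lemma val_neg_cq (k : Fin M) : (-cq M k).val = M + M + 1 - k := by
  rw [Fin.val_neg]
  have h1 : cq M k ≠ 0 := by
    intro h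
    have := congrArg Fin.val h
    simp [cq] at this
  rw [if_neg h1]
  simp only [cq]
  omega

lemma cq_inj {j k : Fin M} (h : cq M j = cq M k) : j = k := by
  have := congrArg Fin.val h
  simp only [cq] at this
  exact Fin.ext (by omega)

lemma cq_ne_neg (j k : Fin M) : cq M j ≠ -cq M k := by
  intro h
  have := congrArg Fin.val h
  rw [val_neg_cq] at this
  simp only [cq] at this
  omega

lemma neg_hf : -hf M = hf M := by
  apply Fin.ext
  rw [Fin.val_neg]
  have h1 : hf M ≠ 0 := by
    intro h
    have := congrArg Fin.val h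
    simp [hf] at this
  rw [if_neg h1]
  simp only [hf]
  omega

/-- enumeration of the group -/
def en : (Fin M ⊕ Fin M) ⊕ Fin 2 → G M
  | Sum.inl (Sum.inl k) => cq M k
  | Sum.inl (Sum.inr k) => -cq M k
  | Sum.inr 0 => 0
  | Sum.inr 1 => hf M

lemma en_val : ∀ x, (en M x).val = match x with
  | Sum.inl (Sum.inl k) => (k : ℕ) + 1
  | Sum.inl (Sum.inr k) => M + M + 1 - k
  | Sum.inr 0 => 0
  | Sum.inr 1 => M + 1 := by
  rintro ((k | k) | k)
  · rfl
  · exact val_neg_cq M k
  · fin_cases k <;> rfl

lemma en_bij : Function.Bijective (en M) := by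
  rw [Fintype.bijective_iff_injective_and_card]
  constructor
  · intro a b h
    have h1 := congrArg Fin.val h
    rw [en_val, en_val] at h1
    rcases a with (a | a) | a <;> rcases b with (b | b) | b
    · have : a = b := Fin.ext (by simp only at h1; omega)
      rw [this]
    · simp only at h1; omega
    · fin_cases b
      · simp only at h1; omega
      · simp at h1 <;> omega
    · simp only at h1; omega
    · have : a = b := Fin.ext (by simp only at h1; omega)
      rw [this]
    · fin_cases b
      · simp at h1 <;> omega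
      · simp at h1 <;> omega
    · fin_cases a
      · simp only at h1; omega
      · simp at h1 <;> omega
    · fin_cases a
      · simp at h1 <;> omega
      · simp at h1 <;> omega
    · fin_cases a <;> fin_cases b <;> first | rfl | simp at h1
  · simp only [Fintype.card_sum, Fintype.card_fin]

lemma sum_en {R : Type*} [AddCommMonoid R] (F : G M → R) :
    ∑ x, F x = ∑ k : Fin M, (F (cq M k) + F (-cq M k)) + (F 0 + F (hf M)) := by
  rw [← Equiv.sum_comp (Equiv.ofBijective _ (en_bij M)) F, Fintype.sum_sum_type,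
    Fintype.sum_sum_type, Fin.sum_univ_two, Finset.sum_add_distrib]
  rfl

section field

variable {K : Type*} [Field K] (ω : K) (hω : IsPrimitiveRoot ω (M + M + 2))

/-- the exponential -/
def E (x : G M) : K := ω ^ x.val

include hω in
lemma E_add (x y : G M) : E M ω (x + y) = E M ω x * E M ω y := by
  unfold E
  rw [← pow_add, Fin.val_add]
  conv_rhs => rw [← Nat.mod_add_div (x.val + y.val) (M + M + 1 + 1)]
  have h : ω ^ (M + M + 1 + 1) = 1 := hω.pow_eq_one
  rw [pow_add, pow_mul, h, one_pow, mul_one]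

lemma E_zero : E M ω 0 = 1 := by
  unfold E
  rw [Fin.val_zero, pow_zero]

include hω in
lemma E_neg (x : G M) : E M ω (-x) * E M ω x = 1 := by
  rw [← E_add M ω hω, neg_add_cancel, E_zero]

include hω in
lemma E_sub (x y : G M) : E M ω (x - y) = E M ω x * E M ω (-y) := by
  rw [sub_eq_add_neg, E_add M ω hω]

include hω in
lemma E_inj {x y : G M} (h : E M ω x = E M ω y) : x = y := by
  unfold E at h
  exact Fin.ext (hω.pow_inj x.2 y.2 h)

/-- the Fourier coefficients -/
def ft (u : G M → K) (a : ℕ) : K := ∑ k, u k * E M ω k ^ a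

include hω in
/-- circulant determinant -/
lemma det_circ (u : G M → K) (hs : ∀ x, u (-x) = u x) :
    (circulant u).det = ∏ a : G M, ft M ω u a.val := by
  have h : circulant u * vandermonde (E M ω) =
      vandermonde (E M ω) * diagonal (fun a : G M => ft M ω u a.val) := by
    ext i a
    rw [mul_apply, mul_diagonal]
    simp only [circulant_apply, vandermonde_apply]
    rw [← Equiv.sum_comp (Equiv.subLeft i)]
    simp only [subLeft_apply, sub_sub_cancel]
    unfold ft
    rw [Finset.mul_sum]
    rw [← Equiv.sum_comp (Equiv.neg (G M))]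
    apply Finset.sum_congr rfl
    intro k _
    simp only [Equiv.neg_apply, sub_neg_eq_add, hs]
    rw [E_add M ω hω, mul_pow]
    ring
  have hV : (vandermonde (E M ω)).det ≠ 0 := by
    rw [det_vandermonde_ne_zero_iff]
    intro x y hxy
    exact E_inj M ω hω hxy
  have h2 := congrArg det h
  rw [det_mul, det_mul, det_diagonal, mul_comm] at h2
  exact mul_left_cancel₀ hV h2

/-- the odd part -/
def DE {R : Type*} [Ring R] (u : G M → R) : Matrix (Fin M) (Fin M) R :=
  of fun j k => u (cq M j - cq M k) - u (cq M j + cq M k)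

def SS : Matrix (Fin M) (Fin M) K :=
  of fun j a => E M ω (cq M j) ^ ((a : ℕ) + 1) - E M ω (-cq M j) ^ ((a : ℕ) + 1)

include hω in
lemma conv (u : G M → K) (hs : ∀ x, u (-x) = u x) (y : G M) (b : ℕ) :
    ∑ x, u (y - x) * E M ω x ^ b = E M ω y ^ b * ft M ω u b := by
  rw [← Equiv.sum_comp (Equiv.subLeft y)]
  simp only [subLeft_apply, sub_sub_cancel]
  unfold ft
  rw [Finset.mul_sum]
  rw [← Equiv.sum_comp (Equiv.neg (G M))]
  apply Finset.sum_congr rfl
  intro k _
  simp only [Equiv.neg_apply, sub_neg_eq_add, hs]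
  rw [E_add M ω hω, mul_pow]
  ring

include hω in
lemma E_hf : E M ω (hf M) = E M ω (-hf M) := by rw [neg_hf]

include hω in
lemma DE_SS (h2 : (2 : K) ≠ 0) (u : G M → K) (hs : ∀ x, u (-x) = u x) :
    DE M u * SS M ω = SS M ω * diagonal (fun a : Fin M => ft M ω u (a + 1)) := by
  ext j a
  rw [mul_apply, mul_diagonal]
  simp only [DE, SS, of_apply]
  set y := cq M j with hy
  set b := (a : ℕ) + 1 with hb
  apply mul_left_cancel₀ h2
  let F : G M → K := fun x => (u (y - x) - u (y + x)) * (E M ω x ^ b - E M ω (-x) ^ b)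
  have hFe : ∀ x, F (-x) = F x := by
    intro x
    simp only [F, sub_neg_eq_add, neg_neg, ← sub_eq_add_neg]
    ring
  have hF0 : F 0 = 0 := by
    simp only [F, neg_zero, sub_self, mul_zero]
  have hFh : F (hf M) = 0 := by
    simp only [F]
    rw [← E_hf M ω hω, sub_self, mul_zero]
  have h1 := sum_en M F
  simp only [hFe, hF0, hFh, add_zero] at h1
  have h3 : 2 * ∑ x : Fin M, (u (y - cq M x) - u (y + cq M x)) *
      (E M ω (cq M x) ^ b - E M ω (-cq M x) ^ b) = ∑ x, F x := by
    rw [h1, Finset.mul_sum]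
    apply Finset.sum_congr rfl
    intro x _
    simp only [F]
    ring
  rw [h3]
  have e1 := conv M ω hω u hs y b
  have e2 : ∑ x, u (y - x) * E M ω (-x) ^ b = E M ω (-y) ^ b * ft M ω u b := by
    rw [← conv M ω hω u hs (-y) b]
    rw [← Equiv.sum_comp (Equiv.neg (G M)) (fun x => u (-y - x) * E M ω x ^ b)]
    apply Finset.sum_congr rfl
    intro x _
    simp only [Equiv.neg_apply]
    rw [← hs (y - x)]
    congr 2
    abel
  have e3 : ∑ x, u (y + x) * E M ω x ^ b = E M ω (-y) ^ b * ft M ω u b := by
    rw [← e2, ← Equiv.sum_comp (Equiv.neg (G M)) (fun x => u (y + x) * E M ω x ^ b)]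
    apply Finset.sum_congr rfl
    intro x _
    simp only [Equiv.neg_apply, ← sub_eq_add_neg]
  have e4 : ∑ x, u (y + x) * E M ω (-x) ^ b = E M ω y ^ b * ft M ω u b := by
    rw [← e1, ← Equiv.sum_comp (Equiv.neg (G M)) (fun x => u (y + x) * E M ω (-x) ^ b)]
    apply Finset.sum_congr rfl
    intro x _
    simp only [Equiv.neg_apply, ← sub_eq_add_neg, neg_neg]
  have h4 : ∑ x, F x = (∑ x, u (y - x) * E M ω x ^ b - ∑ x, u (y - x) * E M ω (-x) ^ b) -
      (∑ x, u (y + x) * E M ω x ^ b - ∑ x, u (y + x) * E M ω (-x) ^ b) := by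
    rw [← Finset.sum_sub_distrib, ← Finset.sum_sub_distrib, ← Finset.sum_sub_distrib]
    apply Finset.sum_congr rfl
    intro x _
    simp only [F]
    ring
  rw [h4, e1, e2, e3, e4]
  ring

include hω in
/-- geometric sums -/
lemma geom (z : G M) : ∑ a ∈ range M, (E M ω z ^ (a + 1) + E M ω (-z) ^ (a + 1)) =
    (if z = 0 then ((M + M + 2 : ℕ) : K) else 0) - 1 - E M ω z ^ (M + 1) := by
  have hinv := E_neg M ω hω z
  have hz0 : E M ω z ≠ 0 := right_ne_zero_of_mul_eq_one hinv
  have hn : E M ω z ^ (M + M + 2) = 1 := by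
    unfold E
    rw [← pow_mul, mul_comm, pow_mul, hω.pow_eq_one, one_pow]
  have h1 : ∑ a ∈ range (M + M + 2), E M ω z ^ a =
      if z = 0 then ((M + M + 2 : ℕ) : K) else 0 := by
    by_cases hz : z = 0
    · rw [if_pos hz, hz, E_zero]
      simp
    · rw [if_neg hz]
      have hne : E M ω z ≠ 1 := by
        intro h
        apply hz
        apply E_inj M ω hω
        rw [h, E_zero]
      have := geom_sum_mul (E M ω z) (M + M + 2)
      rw [hn, sub_self] at this
      rcases mul_eq_zero.mp this with h | h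
      · exact h
      · exact absurd (sub_eq_zero.mp h) hne
  have h2 : ∑ a ∈ range (M + M + 2), E M ω z ^ a =
      1 + ∑ a ∈ range M, E M ω z ^ (a + 1) + E M ω z ^ (M + 1) +
        ∑ a ∈ range M, E M ω z ^ (M + 2 + a) := by
    rw [show M + M + 2 = (M + 2) + M by ring, Finset.sum_range_add, Finset.sum_range_succ,
      Finset.sum_range_succ', pow_zero]
    ring
  have h3 : ∑ a ∈ range M, E M ω z ^ (M + 2 + a) = ∑ a ∈ range M, E M ω (-z) ^ (a + 1) := by
    rw [← Finset.sum_range_reflect]
    apply Finset.sum_congr rfl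
    intro a ha
    have ha' := Finset.mem_range.mp ha
    have hm : E M ω z ^ (a + 1) ≠ 0 := pow_ne_zero _ hz0
    apply mul_right_cancel₀ hm
    rw [← pow_add, ← mul_pow, hinv, one_pow]
    rw [show M + 2 + (M - 1 - a) + (a + 1) = M + M + 2 by omega]
    exact hn
  rw [Finset.sum_add_distrib, ← h3, ← h1, h2]
  ring

include hω in
lemma SS_ne (hn : ((M + M + 2 : ℕ) : K) ≠ 0) : (SS M ω).det ≠ 0 := by
  have h : SS M ω * (SS M ω)ᵀ = diagonal (fun _ => -((M + M + 2 : ℕ) : K)) := by
    ext j k
    rw [mul_apply]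
    simp only [transpose_apply, SS, of_apply]
    rw [Fin.sum_univ_eq_sum_range (fun a => (E M ω (cq M j) ^ (a + 1) -
      E M ω (-cq M j) ^ (a + 1)) * (E M ω (cq M k) ^ (a + 1) - E M ω (-cq M k) ^ (a + 1))) M]
    have e1 : ∀ a ∈ range M, (E M ω (cq M j) ^ (a + 1) -
      E M ω (-cq M j) ^ (a + 1)) * (E M ω (cq M k) ^ (a + 1) - E M ω (-cq M k) ^ (a + 1)) =
      (E M ω (cq M j + cq M k) ^ (a + 1) + E M ω (-(cq M j + cq M k)) ^ (a + 1)) -
      (E M ω (cq M j - cq M k) ^ (a + 1) + E M ω (-(cq M j - cq M k)) ^ (a + 1)) := by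
      intro a _
      rw [neg_add, neg_sub, sub_eq_add_neg (cq M j), sub_eq_add_neg (cq M k)]
      simp only [E_add M ω hω, mul_pow]
      ring
    rw [Finset.sum_congr rfl e1, Finset.sum_sub_distrib, geom M ω hω, geom M ω hω]
    have h0 : cq M j + cq M k ≠ 0 := by
      intro h
      exact cq_ne_neg M j k (eq_neg_of_add_eq_zero_left h)
    rw [if_neg h0]
    have hsg : E M ω (cq M j + cq M k) ^ (M + 1) = E M ω (cq M j - cq M k) ^ (M + 1) := by
      rw [sub_eq_add_neg, E_add M ω hω, E_add M ω hω, mul_pow, mul_pow]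
      congr 1
      have h1 : (E M ω (-cq M k) * E M ω (cq M k)) ^ (M + 1) = 1 := by
        rw [E_neg M ω hω, one_pow]
      have h2 : E M ω (cq M k) ^ (M + 1) * E M ω (cq M k) ^ (M + 1) = 1 := by
        rw [← pow_add]
        unfold E
        rw [← pow_mul, mul_comm, pow_mul, show M + 1 + (M + 1) = M + M + 2 by ring,
          hω.pow_eq_one, one_pow]
      rw [mul_pow] at h1
      have h3 : E M ω (cq M k) ^ (M + 1) ≠ 0 := right_ne_zero_of_mul_eq_one h1
      exact mul_right_cancel₀ h3 (h2.trans h1.symm)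
    rw [hsg]
    by_cases hjk : j = k
    · subst hjk
      rw [sub_self, if_pos rfl, diagonal_apply_eq]
      ring
    · have h1 : cq M j - cq M k ≠ 0 := by
        intro h
        exact hjk (cq_inj M (sub_eq_zero.mp h))
      rw [if_neg h1, diagonal_apply_ne _ hjk]
      ring
  have h2 := congrArg det h
  rw [det_mul, det_transpose, det_diagonal] at h2
  intro h3
  rw [h3, mul_zero, Finset.prod_const] at h2
  exact pow_ne_zero _ (neg_ne_zero.mpr hn) h2.symm

include hω in
lemma det_DE (h2 : (2 : K) ≠ 0) (hn : ((M + M + 2 : ℕ) : K) ≠ 0) (u : G M → K)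
    (hs : ∀ x, u (-x) = u x) : (DE M u).det = ∏ a ∈ range M, ft M ω u (a + 1) := by
  have h := congrArg det (DE_SS M ω hω h2 u hs)
  rw [det_mul, det_mul, det_diagonal, mul_comm] at h
  rw [mul_left_cancel₀ (SS_ne M ω hω hn) h, ← Fin.prod_univ_eq_prod_range]

include hω in
/-- circulant determinant of a symmetric function -/
lemma det_circ_sym (h2 : (2 : K) ≠ 0) (hn : ((M + M + 2 : ℕ) : K) ≠ 0) (u : G M → K)
    (hs : ∀ x, u (-x) = u x) :
    (circulant u).det = (∑ x, u x) * (∑ x : G M, u x * (-1) ^ x.val) * (DE M u).det ^ 2 := by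
  have hft : ∀ a : ℕ, a < M + M + 2 → ft M ω u (M + M + 2 - a) = ft M ω u a := by
    intro a ha
    unfold ft
    rw [← Equiv.sum_comp (Equiv.neg (G M))]
    apply Finset.sum_congr rfl
    intro k _
    simp only [Equiv.neg_apply, hs]
    congr 1
    have h1 := E_neg M ω hω k
    have hz0 : E M ω k ^ a ≠ 0 := pow_ne_zero _ (right_ne_zero_of_mul_eq_one h1)
    have hz1 : E M ω (-k) ^ (M + M + 2) = 1 := by
      unfold E
      rw [← pow_mul, mul_comm, pow_mul, hω.pow_eq_one, one_pow]
    have h3 : (E M ω (-k) * E M ω k) ^ a = 1 := by rw [h1, one_pow]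
    have hm : E M ω (-k) ^ a ≠ 0 := by
      rw [mul_pow] at h3
      exact left_ne_zero_of_mul_eq_one h3
    apply mul_right_cancel₀ hm
    rw [← pow_add, show M + M + 2 - a + a = M + M + 2 by omega, hz1, mul_comm, ← mul_pow, h1,
      one_pow]
  rw [det_circ M ω hω u hs, det_DE M ω hω h2 hn u hs]
  have h1 : ∏ a : G M, ft M ω u a.val = ∏ a ∈ range (M + M + 2), ft M ω u a := by
    rw [← Fin.prod_univ_eq_prod_range]
  have h1' : ∏ a ∈ range (M + M + 2), ft M ω u a = (∏ a ∈ range M, ft M ω u (a + 1)) *
      ft M ω u 0 * ft M ω u (M + 1) * ∏ x ∈ range M, ft M ω u (M + 2 + x) := by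
    rw [show M + M + 2 = (M + 2) + M by ring, Finset.prod_range_add, Finset.prod_range_succ,
      Finset.prod_range_succ']
  rw [h1, h1']
  have h3 : ∏ x ∈ range M, ft M ω u (M + 2 + x) = ∏ x ∈ range M, ft M ω u (x + 1) := by
    rw [← Finset.prod_range_reflect]
    apply Finset.prod_congr rfl
    intro a ha
    have ha' := Finset.mem_range.mp ha
    rw [← hft (a + 1) (by omega)]
    congr 1
    omega
  have h0 : ft M ω u 0 = ∑ x, u x := by
    unfold ft
    simp
  have hh : ft M ω u (M + 1) = ∑ x : G M, u x * (-1) ^ x.val := by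
    unfold ft
    apply Finset.sum_congr rfl
    intro k _
    congr 1
    unfold E
    rw [← pow_mul, mul_comm, pow_mul]
    congr 1
    have h4 : (ω ^ (M + 1)) ^ 2 = 1 := by
      rw [← pow_mul, show (M + 1) * 2 = M + M + 2 by ring, hω.pow_eq_one]
    rcases mul_self_eq_one_iff.mp (show ω ^ (M + 1) * ω ^ (M + 1) = 1 by rw [← sq]; exact h4)
      with h5 | h5
    · exfalso
      have := hω.dvd_of_pow_eq_one (M + 1) h5
      have := Nat.le_of_dvd (by omega) this
      omega
    · exact h5
  rw [h3, h0, hh]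
  ring

end field

section int

/-- the principal minor -/
def cme (V : G M → ℤ) : ℤ := ((circulant V).submatrix Fin.succ Fin.succ).det

/-- the alternating sum -/
def alt (V : G M → ℤ) : ℤ := ∑ x : G M, V x * (-1) ^ x.val

lemma cme_eq (V : G M → ℤ) : cme M V = (circulant V).adjugate 0 0 := by
  rw [adjugate_fin_succ_eq_det_submatrix]
  simp only [cme]
  simp [Fin.succAbove_zero]

lemma sum_zero (V : G M → ℤ) (τ : G M) (hV : ∀ x, V (τ - x) = -V x) : ∑ x, V x = 0 := by
  have h := Equiv.sum_comp (Equiv.subLeft τ) V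
  simp only [subLeft_apply, hV, Finset.sum_neg_distrib] at h
  omega

lemma val_sub_one (x : G M) (hx : x ≠ 0) : (x - 1).val = x.val - 1 :=
  Fin.val_sub_one_of_ne_zero hx

lemma val_zero_sub : ((0 : G M) - 1).val = M + M + 1 := by
  rw [zero_sub]
  exact Fin.coe_neg_one

lemma exists_U0 (V : G M → ℤ) (hs : ∑ x, V x = 0) :
    ∃ U : G M → ℤ, ∀ x, V x = U (x - 1) - U x := by
  let W : ℕ → ℤ := fun j => if h : j < M + M + 1 + 1 then V ⟨j, h⟩ else 0
  refine ⟨fun x => -∑ j ∈ range x.val, W (j + 1), ?_⟩
  intro x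
  by_cases hx : x = 0
  · subst hx
    beta_reduce
    rw [val_zero_sub, Fin.val_zero, Finset.range_zero, Finset.sum_empty]
    have h1 : ∑ j ∈ range (M + M + 1 + 1), W j = 0 := by
      rw [← hs, ← Fin.sum_univ_eq_sum_range]
      apply Finset.sum_congr rfl
      intro i _
      simp only [W]
      rw [dif_pos i.2]
    rw [Finset.sum_range_succ'] at h1
    have h2 : W 0 = V 0 := by
      simp only [W]
      rw [dif_pos (by omega)]
      rfl
    rw [h2] at h1
    linarith
  · beta_reduce
    rw [val_sub_one M x hx]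
    have h0 : x.val ≠ 0 := fun h => hx (Fin.ext h)
    obtain ⟨t, ht⟩ := Nat.exists_eq_succ_of_ne_zero h0
    rw [ht, Nat.succ_sub_one, Finset.sum_range_succ]
    have h2 : W (t + 1) = V x := by
      simp only [W]
      rw [dif_pos (by have := x.2; omega)]
      congr 1
      exact Fin.ext ht.symm
    rw [h2]
    ring

lemma const_of_step (D : G M → ℤ) (h : ∀ x, D (x - 1) = D x) (x : G M) : D x = D 0 := by
  have : ∀ (t : ℕ) (y : G M), y.val = t → D y = D 0 := by
    intro t
    induction t with
    | zero => intro y hy; rw [show y = 0 from Fin.ext hy]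
    | succ t ih =>
      intro y hy
      have hy0 : y ≠ 0 := by
        intro h0
        rw [h0] at hy
        simp at hy
      rw [← h y]
      apply ih
      rw [val_sub_one M y hy0, hy]
      rfl
  exact this x.val x rfl

lemma exists_U (V : G M → ℤ) (hV : ∀ x, V (1 - x) = -V x) :
    ∃ U : G M → ℤ, (∀ x, V x = U (x - 1) - U x) ∧ (∀ x, U (-x) = U x) ∧ ∑ x, U x ≠ 0 := by
  obtain ⟨U, hU⟩ := exists_U0 M V (sum_zero M V 1 hV)
  have hsym : ∀ x, U (-x) = U x := by
    intro x
    have h := const_of_step M (fun x => U (-x) - U x) (by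
      intro x
      have h1 := hU x
      have h2 := hU (1 - x)
      rw [hV, show 1 - x - 1 = -x by abel] at h2
      rw [show -(x - 1) = 1 - x by abel]
      linarith) x
    simp only [neg_zero, sub_self] at h
    linarith
  by_cases hs : ∑ x, U x = 0
  · refine ⟨fun x => U x + 1, ?_, ?_, ?_⟩
    · intro x; rw [hU x]; ring
    · intro x; beta_reduce; rw [hsym]
    · rw [Finset.sum_add_distrib, hs, Finset.sum_const, Finset.card_univ, Fintype.card_fin]
      simp only [nsmul_eq_mul, mul_one, zero_add]
      push_cast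
      omega
  · exact ⟨U, hU, hsym, hs⟩

/-- parity character -/
lemma sgn_add (x y : G M) : ((-1 : ℤ) ^ (x + y).val) = (-1) ^ x.val * (-1) ^ y.val := by
  rw [Fin.val_add, ← pow_add]
  rw [neg_one_pow_eq_pow_mod_two, neg_one_pow_eq_pow_mod_two (n := x.val + y.val)]
  rw [Nat.mod_mod_of_dvd _ (show 2 ∣ M + M + 1 + 1 from ⟨M + 1, by ring⟩)]

lemma sgn_neg (x : G M) : ((-1 : ℤ) ^ (-x).val) = (-1) ^ x.val := by
  have h := sgn_add M (-x) x
  rw [neg_add_cancel, Fin.val_zero, pow_zero] at h
  have h1 : ((-1 : ℤ) ^ x.val) * (-1) ^ x.val = 1 := by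
    rw [← pow_add, ← two_mul, pow_mul]; norm_num
  have h2 : ((-1 : ℤ) ^ x.val) ≠ 0 := pow_ne_zero _ (by norm_num)
  exact mul_right_cancel₀ h2 (h.symm.trans h1.symm)

lemma sgn_one : ((-1 : ℤ) ^ (1 : G M).val) = -1 := by
  have : (1 : G M).val = 1 := by
    rw [Fin.val_one]
  rw [this, pow_one]

/-- values of `U` modulo 2 -/
lemma U_mod (V U : G M → ℤ) (hU : ∀ x, V x = U (x - 1) - U x) (hodd : ∀ x, V x % 2 = 1)
    (x : G M) : (U x - U 0) % 2 = ((x.val : ℕ) : ℤ) % 2 := by
  have : ∀ (t : ℕ) (y : G M), y.val = t → (U y - U 0) % 2 = (t : ℤ) % 2 := by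
    intro t
    induction t with
    | zero => intro y hy; rw [show y = 0 from Fin.ext hy]; simp
    | succ t ih =>
      intro y hy
      have hy0 : y ≠ 0 := by
        intro h0
        rw [h0] at hy
        simp at hy
      have h1 := ih (y - 1) (by rw [val_sub_one M y hy0, hy]; rfl)
      have h2 := hU y
      have h3 := hodd y
      push_cast
      omega
  exact this x.val x rfl

lemma DE_even (V U : G M → ℤ) (hU : ∀ x, V x = U (x - 1) - U x) (hodd : ∀ x, V x % 2 = 1) :
    ∃ D' : Matrix (Fin M) (Fin M) ℤ, DE M U = 2 • D' := by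
  refine ⟨of fun j k => (DE M U j k) / 2, ?_⟩
  ext j k
  rw [Matrix.smul_apply, of_apply]
  have h1 := U_mod M V U hU hodd (cq M j - cq M k)
  have h2 := U_mod M V U hU hodd (cq M j + cq M k)
  have h3 : (((cq M j - cq M k).val : ℕ) : ℤ) % 2 = (((cq M j + cq M k).val : ℕ) : ℤ) % 2 := by
    have e1 := sgn_add M (cq M j) (cq M k)
    have e2 := sgn_add M (cq M j) (-cq M k)
    rw [sgn_neg] at e2
    rw [← sub_eq_add_neg] at e2
    have e3 : ((-1 : ℤ) ^ (cq M j - cq M k).val) = (-1) ^ (cq M j + cq M k).val :=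
      e2.trans e1.symm
    rcases Nat.even_or_odd (cq M j - cq M k).val with ha | ha <;>
      rcases Nat.even_or_odd (cq M j + cq M k).val with hb | hb
    · obtain ⟨a, ha⟩ := ha
      obtain ⟨b, hb⟩ := hb
      rw [ha, hb]; push_cast; omega
    · rw [ha.neg_one_pow, hb.neg_one_pow] at e3
      norm_num at e3
    · rw [ha.neg_one_pow, hb.neg_one_pow] at e3
      norm_num at e3
    · obtain ⟨a, ha⟩ := ha
      obtain ⟨b, hb⟩ := hb
      rw [ha, hb]; push_cast; omega
  have h4 : DE M U j k = U (cq M j - cq M k) - U (cq M j + cq M k) := rfl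
  rw [h4]
  simp only [smul_eq_mul, nsmul_eq_mul]
  push_cast
  omega

/-- the difference kernel -/
def X1 (x : G M) : ℤ := (if x = 1 then 1 else 0) - (if x = 0 then 1 else 0)

lemma one_ne_zero' : (1 : G M) ≠ 0 := by
  intro h
  have := congrArg Fin.val h
  rw [Fin.val_one] at this
  simp at this

lemma X1_adj (i j : G M) : (circulant (X1 M)).adjugate i j = -1 := by
  have h1 : ∑ x, X1 M x = 0 := by
    unfold X1
    rw [Finset.sum_sub_distrib]
    simp
  rw [adj_const (circulant (X1 M)) (by
    intro i; simp only [circulant_apply]; rw [sum_sub_left, h1]) (by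
    intro j; simp only [circulant_apply]; rw [sum_sub_right, h1]) i 0 j 0]
  rw [← cme_eq]
  unfold cme
  rw [det_of_isLowerTriangular]
  · simp only [submatrix_apply, circulant_apply, sub_self]
    have : X1 M 0 = -1 := by
      unfold X1
      rw [if_neg (one_ne_zero' M).symm, if_pos rfl]; ring
    rw [this, Finset.prod_const, Finset.card_univ, Fintype.card_fin]
    have h3 : Odd (M + M + 1) := ⟨M, by ring⟩
    exact h3.neg_one_pow
  · intro a b hab
    have hab' : a < b := hab
    simp only [submatrix_apply, circulant_apply]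
    unfold X1
    have hne : a.succ - b.succ ≠ (0 : G M) := by
      intro h
      have := Fin.succ_injective _ (sub_eq_zero.mp h)
      omega
    have hne1 : a.succ - b.succ ≠ (1 : G M) := by
      intro h
      have h2 : (a.succ : G M) = b.succ + 1 := by
        rw [← h]; abel
      have h3 := congrArg Fin.val h2
      rw [Fin.val_add, Fin.val_one, Fin.val_succ, Fin.val_succ] at h3
      have hb := b.2
      have ha : a.val < b.val := hab'
      rcases Nat.lt_or_ge (b.val + 1 + 1) (M + M + 1 + 1) with h4 | h4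
      · rw [Nat.mod_eq_of_lt h4] at h3; omega
      · have : b.val + 1 + 1 = M + M + 1 + 1 := by omega
        rw [this, Nat.mod_self] at h3
        omega
    rw [if_neg hne, if_neg hne1, sub_zero]

/-- the evaluation of the minor -/
theorem cme_main (V U : G M → ℤ) (hU : ∀ x, V x = U (x - 1) - U x) (hsym : ∀ x, U (-x) = U x)
    (hs : ∑ x, U x ≠ 0) : 2 * cme M V = alt M V * (DE M U).det ^ 2 := by
  -- factorisation of the circulant
  have hfac : circulant V = circulant (X1 M) * circulant U := by
    ext i j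
    rw [mul_apply]
    simp only [circulant_apply, X1]
    simp only [sub_mul, ite_mul, one_mul, zero_mul, Finset.sum_sub_distrib]
    have e1 : ∑ x, (if i - x = 1 then U (x - j) else 0) = U (i - j - 1) := by
      rw [Finset.sum_eq_single (i - 1)]
      · rw [if_pos (by abel)]; congr 1; abel
      · intro b _ hb
        rw [if_neg]
        intro h
        apply hb
        rw [← h]; abel
      · intro h; exact absurd (Finset.mem_univ _) h
    have e2 : ∑ x, (if i - x = 0 then U (x - j) else 0) = U (i - j) := by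
      rw [Finset.sum_eq_single i]
      · rw [if_pos (sub_self i)]
      · intro b _ hb
        rw [if_neg]
        intro h
        exact hb (sub_eq_zero.mp h).symm
      · intro h; exact absurd (Finset.mem_univ _) h
    rw [e1, e2, hU]
  have hadj : cme M V = -∑ k, (circulant U).adjugate 0 k := by
    rw [cme_eq, hfac, adjugate_mul_distrib, mul_apply]
    simp only [X1_adj, mul_neg, mul_one, Finset.sum_neg_distrib]
  -- row sums of the adjugate
  have hrow : (∑ k, (circulant U).adjugate 0 k) * ∑ x, U x = (circulant U).det := by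
    have h1 := adjugate_mul (circulant U)
    have h2 : ∑ j, ((circulant U).adjugate * circulant U) 0 j = (circulant U).det := by
      rw [h1]
      simp [Matrix.one_apply]
    rw [← h2]
    simp only [mul_apply, circulant_apply]
    rw [Finset.sum_comm, Finset.sum_mul]
    apply Finset.sum_congr rfl
    intro k _
    rw [← Finset.mul_sum, sum_sub_left]
  -- the determinant
  have hdet : (circulant U).det = (∑ x, U x) * alt M U * (DE M U).det ^ 2 := by
    obtain ⟨ω, hω⟩ : ∃ ω : ℂ, IsPrimitiveRoot ω (M + M + 2) :=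
      ⟨_, Complex.isPrimitiveRoot_exp (M + M + 2) (by omega)⟩
    have h := det_circ_sym M ω hω (by norm_num) (by
      rw [Nat.cast_ne_zero]; omega) (fun x => ((U x : ℤ) : ℂ)) (by
      intro x; rw [hsym])
    have e1 : (circulant (fun x => ((U x : ℤ) : ℂ))).det = (((circulant U).det : ℤ) : ℂ) := by
      rw [Int.cast_det]
      rfl
    have e2 : (DE M (fun x => ((U x : ℤ) : ℂ))).det = (((DE M U).det : ℤ) : ℂ) := by
      rw [Int.cast_det]
      congr 1
      ext i j
      simp [DE]
    rw [e1, e2] at h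
    unfold alt
    exact_mod_cast h
  have halt : alt M V = -2 * alt M U := by
    unfold alt
    have h1 : ∑ x, V x * (-1) ^ x.val = ∑ x, U (x - 1) * (-1) ^ x.val - ∑ x, U x * (-1) ^ x.val := by
      rw [← Finset.sum_sub_distrib]
      apply Finset.sum_congr rfl
      intro x _
      rw [hU x]; ring
    have h2 : ∑ x : G M, U (x - 1) * (-1) ^ x.val = -∑ x : G M, U x * (-1) ^ x.val := by
      rw [← Equiv.sum_comp (Equiv.addRight (1 : G M)) (fun x => U (x - 1) * (-1) ^ x.val)]
      rw [← Finset.sum_neg_distrib]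
      apply Finset.sum_congr rfl
      intro x _
      simp only [coe_addRight, add_sub_cancel_right]
      rw [sgn_add, sgn_one]; ring
    rw [h1, h2]; ring
  rw [hdet] at hrow
  have h3 : (∑ k, (circulant U).adjugate 0 k) = alt M U * (DE M U).det ^ 2 := by
    apply mul_right_cancel₀ hs
    rw [hrow]; ring
  rw [hadj, h3, halt]
  ring

/-- sign of a shift -/
lemma sign_add (σ : G M) : (Perm.sign (Equiv.addRight σ) : ℤ) = (-1) ^ σ.val := by
  have : ∀ (t : ℕ) (y : G M), y.val = t → (Perm.sign (Equiv.addRight y) : ℤ) = (-1) ^ t := by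
    intro t
    induction t with
    | zero =>
      intro y hy
      have hy0 : y = 0 := Fin.ext hy
      subst hy0
      have : Equiv.addRight (0 : G M) = 1 := by
        ext x; simp
      rw [this, Perm.sign_one]; rfl
    | succ t ih =>
      intro y hy
      have hy0 : y ≠ 0 := by
        intro h0
        rw [h0] at hy
        simp at hy
      have h1 := ih (y - 1) (by rw [val_sub_one M y hy0, hy]; rfl)
      have h2 : Equiv.addRight y = Equiv.addRight (y - 1) * finRotate (M + M + 1 + 1) := by
        ext x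
        simp only [coe_addRight, Perm.coe_mul, Function.comp_apply, finRotate_apply]
        congr 1
        abel
      rw [h2, Perm.sign_mul, sign_finRotate]
      have h3 : Odd (M + M + 1) := ⟨M, by ring⟩
      rw [show M + M + 1 + 1 - 1 = M + M + 1 from rfl, h3.neg_one_pow, Units.val_mul, h1,
        pow_succ]
      rfl
  exact this σ.val σ rfl

lemma cme_shift (v : G M → ℤ) (hv : ∑ x, v x = 0) (σ : G M) :
    cme M (fun x => v (x + σ)) = (-1) ^ σ.val * cme M v := by
  rw [cme_eq, cme_eq]
  have h : circulant (fun x => v (x + σ)) = (circulant v).submatrix (Equiv.addRight σ) id := by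
    ext i j
    simp only [circulant_apply, submatrix_apply, coe_addRight, id_eq]
    congr 1
    rw [sub_add_eq_add_sub]
  rw [h, adj_perm, sign_add]
  congr 1
  apply adj_const
  · intro i; simp only [circulant_apply]; rw [sum_sub_left, hv]
  · intro j; simp only [circulant_apply]; rw [sum_sub_right, hv]

lemma alt_shift (v : G M → ℤ) (σ : G M) :
    alt M (fun x => v (x + σ)) = (-1) ^ σ.val * alt M v := by
  unfold alt
  rw [← Equiv.sum_comp (Equiv.addRight σ) (fun x => v x * (-1) ^ x.val), Finset.mul_sum]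
  apply Finset.sum_congr rfl
  intro x _
  simp only [coe_addRight]
  rw [sgn_add]
  have h1 : ((-1 : ℤ) ^ σ.val) * (-1) ^ σ.val = 1 := by
    rw [← pow_add, ← two_mul, pow_mul]; norm_num
  linear_combination (-(v (x + σ) * (-1) ^ x.val)) * h1

end int

end Pool.Agent.Q280.JD.Ev
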