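import Mathlib
import Pool.Agent.Q280.JD.CharSum

/-!
Kernel vectors of the truncated matrices of Jacobi symbols of binary quadratic forms.
-/

namespace Pool.Agent.Q280.JD

open Finset

/-- The matrix `((j² + c j k + d k²) / n)` with `j, k` running over `2, ..., n - 2`. -/
def M (c d : ℤ) (n : ℕ) : Matrix (Fin (n - 3)) (Fin (n - 3)) ℤ :=
  Matrix.of fun j k => jacobiSym (((j : ℤ) + 2) ^ 2 + c * ((j : ℤ) + 2) * ((k : ℤ) + 2) +
    d * ((k : ℤ) + 2) ^ 2) n

section prime

variable (p : ℕ) [Fact p.Prime]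

/-- reflection `x ↦ j / x`. -/
lemma sum_reflect (j : ZMod p) (hj : j ≠ 0) (G : ZMod p → ℤ) :
    ∑ x : ZMod p, G x = ∑ x : ZMod p, G (j / x) := by
  have hinv : Function.Involutive (fun x : ZMod p => j / x) := by
    intro x
    by_cases hx : x = 0
    · simp [hx]
    · field_simp
  exact (Equiv.sum_comp hinv.toPerm G).symm

lemma chi_div (a x : ZMod p) (hx : x ≠ 0) :
    quadraticChar (ZMod p) (a / x) = quadraticChar (ZMod p) a * quadraticChar (ZMod p) x := by
  have h : quadraticChar (ZMod p) (a / x) * quadraticChar (ZMod p) x =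
      quadraticChar (ZMod p) a := by
    rw [← map_mul, div_mul_cancel₀ _ hx]
  have h2 : quadraticChar (ZMod p) x * quadraticChar (ZMod p) x = 1 := by
    have := quadraticChar_sq_one hx
    rw [← sq]; exact this
  calc quadraticChar (ZMod p) (a / x)
      = quadraticChar (ZMod p) (a / x) * (quadraticChar (ZMod p) x *
        quadraticChar (ZMod p) x) := by rw [h2, mul_one]
    _ = _ := by rw [← mul_assoc, h]

lemma chi_sq_mul (a x : ZMod p) (hx : x ≠ 0) :
    quadraticChar (ZMod p) (x ^ 2 * a) = quadraticChar (ZMod p) a := by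
  rw [map_mul, quadraticChar_sq_one' hx, one_mul]

lemma rowB (hp2 : p ≠ 2) (c d : ZMod p) (hS : S p c d = 0) (j : ZMod p) :
    ∑ k : ZMod p, quadraticChar (ZMod p) (j ^ 2 + c * j * k + d * k ^ 2) *
      quadraticChar (ZMod p) k = 0 := by
  by_cases hj : j = 0
  · subst hj
    have h : ∀ k : ZMod p, quadraticChar (ZMod p) (0 ^ 2 + c * 0 * k + d * k ^ 2) *
        quadraticChar (ZMod p) k = quadraticChar (ZMod p) d * quadraticChar (ZMod p) k := by
      intro k
      by_cases hk : k = 0
      · simp [hk]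
      · rw [show (0 ^ 2 + c * 0 * k + d * k ^ 2 : ZMod p) = k ^ 2 * d by ring,
          chi_sq_mul p d k hk]
    rw [Finset.sum_congr rfl (fun k _ => h k), ← Finset.mul_sum]
    have hchar : ringChar (ZMod p) ≠ 2 := by rw [ZMod.ringChar_zmod_n]; exact hp2
    rw [quadraticChar_sum_zero hchar, mul_zero]
  · rw [sum_reflect p j hj]
    have h : ∀ x : ZMod p, quadraticChar (ZMod p) (j ^ 2 + c * j * (j / x) + d * (j / x) ^ 2) *
        quadraticChar (ZMod p) (j / x) =
        quadraticChar (ZMod p) j * (quadraticChar (ZMod p) x *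
          quadraticChar (ZMod p) (x ^ 2 + c * x + d)) := by
      intro x
      by_cases hx : x = 0
      · simp [hx]
      · rw [chi_div p j x hx]
        have e : j ^ 2 + c * j * (j / x) + d * (j / x) ^ 2 =
            (j / x) ^ 2 * (x ^ 2 + c * x + d) := by
          field_simp
        rw [e, chi_sq_mul p _ _ (div_ne_zero hj hx)]
        ring
    rw [Finset.sum_congr rfl (fun k _ => h k), ← Finset.mul_sum]
    unfold S at hS
    rw [hS, mul_zero]

lemma rowA (c d : ZMod p) (hd : quadraticChar (ZMod p) d = -1) (j : ZMod p) (hj : j ≠ 0) :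
    ∑ k : ZMod p, (if k = 0 then 0 else
      quadraticChar (ZMod p) (j ^ 2 + c * j * k + d * k ^ 2)) = 0 := by
  have hd0 : d ≠ 0 := by
    intro h
    rw [h, MulChar.map_zero] at hd
    exact absurd hd (by norm_num)
  rw [sum_reflect p j hj]
  have h : ∀ x : ZMod p, (if j / x = 0 then 0 else
      quadraticChar (ZMod p) (j ^ 2 + c * j * (j / x) + d * (j / x) ^ 2)) =
      (if x = 0 then 0 else quadraticChar (ZMod p) (x ^ 2 + c * x + d)) := by
    intro x
    by_cases hx : x = 0
    · simp [hx]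
    · rw [if_neg (div_ne_zero hj hx), if_neg hx]
      have e : j ^ 2 + c * j * (j / x) + d * (j / x) ^ 2 =
          (j / x) ^ 2 * (x ^ 2 + c * x + d) := by
        field_simp
      rw [e, chi_sq_mul p _ _ (div_ne_zero hj hx)]
  rw [Finset.sum_congr rfl (fun k _ => h k)]
  have h2 : ∑ x : ZMod p, (if x = 0 then 0 else quadraticChar (ZMod p) (x ^ 2 + c * x + d)) =
      - ∑ x : ZMod p, (if x = 0 then 0 else quadraticChar (ZMod p) (x ^ 2 + c * x + d)) := by
    conv_lhs => rw [sum_reflect p d hd0]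
    rw [← Finset.sum_neg_distrib]
    apply Finset.sum_congr rfl
    intro x _
    by_cases hx : x = 0
    · simp [hx]
    · rw [if_neg (div_ne_zero hd0 hx), if_neg hx]
      have e : (d / x) ^ 2 + c * (d / x) + d = x⁻¹ ^ 2 * (d * (x ^ 2 + c * x + d)) := by
        field_simp
        ring
      rw [e, chi_sq_mul p _ _ (inv_ne_zero hx), map_mul, hd]
      ring
  omega

end prime

/-- sums over `2, ..., n-2`. -/
lemma sum_fin (n : ℕ) (hn : 4 ≤ n) (F : ℕ → ℤ) (h0 : F 0 = 0) (h1 : F 1 = 0)
    (h2 : F (n - 1) = 0) : ∑ k : Fin (n - 3), F (k + 2) = ∑ k ∈ range n, F k := by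
  rw [Fin.sum_univ_eq_sum_range (fun k => F (k + 2)) (n - 3)]
  have e : n = (n - 3 + 1) + 1 + 1 := by omega
  conv_rhs => rw [e]
  rw [Finset.sum_range_succ' (fun k => F k), Finset.sum_range_succ' (fun k => F (k + 1)),
    Finset.sum_range_succ (fun k => F (k + 1 + 1))]
  rw [h0, show n - 3 + 1 + 1 = n - 1 by omega, h2]
  simp [h1]

lemma sum_range_zmod (p : ℕ) [Fact p.Prime] (G : ZMod p → ℤ) :
    ∑ k ∈ range p, G (k : ZMod p) = ∑ x : ZMod p, G x := by
  have : NeZero p := ⟨(Fact.out : p.Prime).ne_zero⟩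
  symm
  apply Finset.sum_nbij' (fun x : ZMod p => x.val) (fun k : ℕ => (k : ZMod p))
  · intro x _; exact Finset.mem_range.mpr (ZMod.val_lt x)
  · intro k _; exact Finset.mem_univ _
  · intro x _; exact ZMod.natCast_zmod_val x
  · intro k hk; exact ZMod.val_cast_of_lt (Finset.mem_range.mp hk)
  · intro x _; rw [ZMod.natCast_zmod_val]

lemma sum_multiples (p m : ℕ) [Fact p.Prime] (hm : 0 < m) (hpm : ¬ p ∣ m) (G : ZMod p → ℤ) :
    ∑ k ∈ range (p * m), (if m ∣ k then G (k : ZMod p) else 0) = ∑ x : ZMod p, G x := by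
  rw [← Finset.sum_filter]
  have h1 : ∑ k ∈ (range (p * m)).filter (fun k => m ∣ k), G (k : ZMod p) =
      ∑ t ∈ range p, G ((m : ZMod p) * (t : ZMod p)) := by
    symm
    apply Finset.sum_nbij (fun t => m * t)
    · intro t ht
      rw [Finset.mem_filter, Finset.mem_range]
      have := Finset.mem_range.mp ht
      refine ⟨?_, Dvd.intro _ rfl⟩
      rw [mul_comm]
      exact Nat.mul_lt_mul_of_pos_right this hm
    · intro a _ b _ h
      exact Nat.eq_of_mul_eq_mul_left hm h
    · intro k hk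
      rw [Finset.mem_coe, Finset.mem_filter, Finset.mem_range] at hk
      obtain ⟨t, ht⟩ := hk.2
      refine ⟨t, ?_, ht.symm⟩
      rw [Finset.mem_coe, Finset.mem_range]
      have := hk.1
      rw [ht, mul_comm] at this
      exact lt_of_mul_lt_mul_right this (Nat.zero_le _)
    · intro t _
      push_cast
      rfl
  rw [h1, sum_range_zmod p (fun x => G ((m : ZMod p) * x))]
  have hm0 : (m : ZMod p) ≠ 0 := by
    intro h
    exact hpm ((ZMod.natCast_eq_zero_iff m p).mp h)
  exact Equiv.sum_comp (Equiv.mulLeft₀ (m : ZMod p) hm0) G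

lemma jac_prime (p : ℕ) [Fact p.Prime] (a : ℤ) :
    jacobiSym a p = quadraticChar (ZMod p) (a : ZMod p) := by
  rw [← jacobiSym.legendreSym.to_jacobiSym]
  rfl

lemma jac_congr (n : ℕ) (a b : ℤ) (h : (n : ℤ) ∣ a - b) : jacobiSym a n = jacobiSym b n :=
  jacobiSym.mod_left' (Int.emod_eq_emod_iff_emod_sub_eq_zero.mpr (Int.emod_eq_zero_of_dvd h))

/-- Case 1: `n` has a square factor. -/
lemma det_square (c d : ℤ) (n q r : ℕ) (hn : n = q * (q * r)) (hq : 3 ≤ q) (hr : 0 < r) :
    (M c d n).det = 0 := by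
  have hm3 : 3 ≤ q * r := le_trans hq (Nat.le_mul_of_pos_right q hr)
  have hlt : q * r < n - 3 := by
    have : 3 * (q * r) ≤ n := by rw [hn]; exact Nat.mul_le_mul_right _ hq
    omega
  have key : ∀ a b : ℤ, ((q * r : ℕ) : ℤ) ∣ a - b → jacobiSym a n = jacobiSym b n := by
    intro a b hab
    have hq0 : q ≠ 0 := by omega
    have hqr0 : q * r ≠ 0 := by omega
    rw [hn, jacobiSym.mul_right' a hq0 hqr0, jacobiSym.mul_right' b hq0 hqr0]
    have e1 : jacobiSym a q = jacobiSym b q :=
      jac_congr q a b (dvd_trans (Int.natCast_dvd_natCast.mpr (Dvd.intro _ rfl)) hab)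
    have e2 : jacobiSym a (q * r) = jacobiSym b (q * r) := jac_congr (q * r) a b hab
    rw [e1, e2]
  have hne : (⟨0, by omega⟩ : Fin (n - 3)) ≠ ⟨q * r, hlt⟩ := by
    intro h
    have := congrArg Fin.val h
    simp only at this
    omega
  apply Matrix.det_zero_of_row_eq hne
  funext k
  simp only [M, Matrix.of_apply]
  apply key
  refine ⟨-(4 + (q * r : ℕ) + c * ((k : ℤ) + 2)), ?_⟩
  push_cast
  ring

/-- Case 2: `n = p` is a prime. -/
lemma det_prime (c d : ℤ) (p : ℕ) [Fact p.Prime] (hp4 : p % 4 = 1)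
    (hS : S p (c : ZMod p) (d : ZMod p) = 0) (hd : quadraticChar (ZMod p) (d : ZMod p) = -1) :
    (M c d p).det = 0 := by
  have hp5 : 5 ≤ p := by
    have := (Fact.out : p.Prime).two_le
    omega
  have hp2 : p ≠ 2 := by omega
  have hneg : quadraticChar (ZMod p) (-1) = 1 := by
    have h := jac_prime p (-1)
    rw [jacobiSym.at_neg_one (Nat.odd_iff.mpr (by omega)), ZMod.χ₄_nat_one_mod_four hp4] at h
    push_cast at h
    exact h.symm
  have hlast : ((p - 1 : ℕ) : ZMod p) = -1 := by
    rw [Nat.cast_sub (by omega)]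
    simp
  apply Matrix.exists_mulVec_eq_zero_iff.mp
  refine ⟨fun k => 1 - quadraticChar (ZMod p) (((k : ℕ) + 2 : ℕ) : ZMod p), ?_, ?_⟩
  · -- nonzero
    intro h
    obtain ⟨a, ha⟩ := quadraticChar_exists_neg_one (F := ZMod p)
      (by rw [ZMod.ringChar_zmod_n]; exact hp2)
    have : NeZero p := ⟨(Fact.out : p.Prime).ne_zero⟩
    have hv : ((a.val : ℕ) : ZMod p) = a := ZMod.natCast_zmod_val a
    have h0 : a.val ≠ 0 := by
      intro h0
      rw [← hv, h0, Nat.cast_zero, MulChar.map_zero] at ha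
      exact absurd ha (by norm_num)
    have h1 : a.val ≠ 1 := by
      intro h0
      rw [← hv, h0, Nat.cast_one, map_one] at ha
      exact absurd ha (by norm_num)
    have h2 : a.val ≠ p - 1 := by
      intro h0
      rw [← hv, h0, hlast, hneg] at ha
      exact absurd ha (by norm_num)
    have h3 := ZMod.val_lt a
    have h4 := congrFun h ⟨a.val - 2, by omega⟩
    simp only [Pi.zero_apply] at h4
    rw [show a.val - 2 + 2 = a.val by omega, hv, ha] at h4
    exact absurd h4 (by norm_num)
  · funext j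
    rw [Matrix.mulVec, dotProduct, Pi.zero_apply]
    set y : ZMod p := (((j : ℕ) + 2 : ℕ) : ZMod p) with hy
    have hj : y ≠ 0 := by
      intro h
      rw [hy, ZMod.natCast_eq_zero_iff] at h
      have := Nat.le_of_dvd (by omega) h
      have := j.2
      omega
    let F : ℕ → ℤ := fun k => quadraticChar (ZMod p) (y ^ 2 + (c : ZMod p) * y * (k : ZMod p) +
      (d : ZMod p) * (k : ZMod p) ^ 2) * (1 - quadraticChar (ZMod p) (k : ZMod p)) *
      (if (k : ZMod p) = 0 then 0 else 1)
    have h1 : ∀ k : Fin (p - 3), M c d p j k *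
        (1 - quadraticChar (ZMod p) (((k : ℕ) + 2 : ℕ) : ZMod p)) = F (k + 2) := by
      intro k
      have hk : (((k : ℕ) + 2 : ℕ) : ZMod p) ≠ 0 := by
        intro h
        rw [ZMod.natCast_eq_zero_iff] at h
        have := Nat.le_of_dvd (by omega) h
        have := k.2
        omega
      simp only [F, M, Matrix.of_apply]
      rw [if_neg hk, jac_prime, mul_one, hy]
      push_cast
      rfl
    rw [Finset.sum_congr rfl (fun k _ => h1 k)]
    rw [sum_fin p (by omega) F]
    · rw [sum_range_zmod p (fun x => quadraticChar (ZMod p) (y ^ 2 + (c : ZMod p) * y * x +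
        (d : ZMod p) * x ^ 2) * (1 - quadraticChar (ZMod p) x) * (if x = 0 then 0 else 1))]
      have hA := rowA p (c : ZMod p) (d : ZMod p) hd y hj
      have hB := rowB p hp2 (c : ZMod p) (d : ZMod p) hS y
      have h2 : ∀ x : ZMod p, quadraticChar (ZMod p) (y ^ 2 + (c : ZMod p) * y * x +
          (d : ZMod p) * x ^ 2) * (1 - quadraticChar (ZMod p) x) * (if x = 0 then 0 else 1) =
          (if x = 0 then 0 else quadraticChar (ZMod p) (y ^ 2 + (c : ZMod p) * y * x +
            (d : ZMod p) * x ^ 2)) -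
          quadraticChar (ZMod p) (y ^ 2 + (c : ZMod p) * y * x + (d : ZMod p) * x ^ 2) *
            quadraticChar (ZMod p) x := by
        intro x
        by_cases hx : x = 0
        · simp [hx]
        · rw [if_neg hx, if_neg hx]; ring
      rw [Finset.sum_congr rfl (fun x _ => h2 x), Finset.sum_sub_distrib, hA, hB, sub_zero]
    · simp [F]
    · simp [F]
    · simp only [F]
      rw [hlast, hneg]
      simp

/-- Case 3: `n = p m` with `p` prime, `m ≥ 3` prime to `p`. -/
lemma det_composite (c d : ℤ) (p m : ℕ) [Fact p.Prime] (hp2 : p ≠ 2) (hm : 3 ≤ m)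
    (hpm : ¬ p ∣ m) (hS : S p (c : ZMod p) (d : ZMod p) = 0) :
    (M c d (p * m)).det = 0 := by
  have hp3 : 3 ≤ p := by
    have := (Fact.out : p.Prime).two_le
    omega
  have hn9 : 3 * m ≤ p * m := Nat.mul_le_mul_right _ hp3
  have hm0 : (m : ZMod p) ≠ 0 := by
    intro h
    exact hpm ((ZMod.natCast_eq_zero_iff m p).mp h)
  apply Matrix.exists_mulVec_eq_zero_iff.mp
  refine ⟨fun k => if m ∣ ((k : ℕ) + 2) then
    quadraticChar (ZMod p) (((k : ℕ) + 2 : ℕ) : ZMod p) else 0, ?_, ?_⟩
  · intro h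
    have h4 := congrFun h ⟨m - 2, by omega⟩
    simp only [Pi.zero_apply] at h4
    rw [show m - 2 + 2 = m by omega, if_pos (dvd_refl m)] at h4
    exact hm0 (quadraticChar_eq_zero_iff.mp h4)
  · funext j
    rw [Matrix.mulVec, dotProduct, Pi.zero_apply]
    set y : ℤ := (j : ℤ) + 2 with hy
    let G : ZMod p → ℤ := fun x => quadraticChar (ZMod p) ((y : ZMod p) ^ 2 +
      (c : ZMod p) * (y : ZMod p) * x + (d : ZMod p) * x ^ 2) * quadraticChar (ZMod p) x
    let F : ℕ → ℤ := fun k => jacobiSym (y ^ 2) m * (if m ∣ k then G (k : ZMod p) else 0)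
    have h1 : ∀ k : Fin (p * m - 3), M c d (p * m) j k * (if m ∣ ((k : ℕ) + 2) then
        quadraticChar (ZMod p) (((k : ℕ) + 2 : ℕ) : ZMod p) else 0) = F (k + 2) := by
      intro k
      simp only [F]
      by_cases hk : m ∣ ((k : ℕ) + 2)
      · rw [if_pos hk, if_pos hk]
        simp only [G, M, Matrix.of_apply]
        rw [jacobiSym.mul_right' _ (by omega) (by omega), jac_prime]
        have e : jacobiSym (((j : ℤ) + 2) ^ 2 + c * ((j : ℤ) + 2) * ((k : ℤ) + 2) +
            d * ((k : ℤ) + 2) ^ 2) m = jacobiSym (y ^ 2) m := by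
          apply jac_congr
          have hk' : (m : ℤ) ∣ (k : ℤ) + 2 := by exact_mod_cast hk
          rw [hy]
          have : ((j : ℤ) + 2) ^ 2 + c * ((j : ℤ) + 2) * ((k : ℤ) + 2) +
            d * ((k : ℤ) + 2) ^ 2 - ((j : ℤ) + 2) ^ 2 =
            ((k : ℤ) + 2) * (c * ((j : ℤ) + 2) + d * ((k : ℤ) + 2)) := by ring
          rw [this]
          exact Dvd.dvd.mul_right hk' _
        rw [e, hy]
        push_cast
        ring
      · rw [if_neg hk, if_neg hk, mul_zero, mul_zero]
    rw [Finset.sum_congr rfl (fun k _ => h1 k)]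
    rw [sum_fin (p * m) (by omega) F]
    · simp only [F]
      rw [← Finset.mul_sum, sum_multiples p m (by omega) hpm G]
      have hB := rowB p hp2 (c : ZMod p) (d : ZMod p) hS (y : ZMod p)
      simp only [G]
      rw [hB, mul_zero]
    · simp only [F, G]
      simp
    · simp only [F]
      rw [if_neg, mul_zero]
      intro h
      have := Nat.le_of_dvd (by norm_num) h
      omega
    · simp only [F]
      rw [if_neg, mul_zero]
      intro h
      have h2 : m ∣ p * m := Dvd.intro_left _ rfl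
      have h3 : m ∣ p * m - (p * m - 1) := Nat.dvd_sub h2 h
      rw [show p * m - (p * m - 1) = 1 by omega] at h3
      have := Nat.le_of_dvd (by norm_num) h3
      omega

lemma exists_prime (n : ℕ) (h : jacobiSym n 7 = -1) :
    ∃ p : ℕ, p.Prime ∧ p ∣ n ∧ jacobiSym p 7 = -1 := by
  induction n using Nat.recOnMul with
  | zero => simp [jacobiSym.zero_left (show 1 < 7 by norm_num)] at h
  | one => simp [jacobiSym.one_left] at h
  | prime p hp => exact ⟨p, hp, dvd_refl p, h⟩
  | mul a b ha hb =>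
    push_cast at h
    rw [jacobiSym.mul_left] at h
    by_cases h1 : jacobiSym a 7 = -1
    · obtain ⟨p, hp, hpa, h2⟩ := ha h1
      exact ⟨p, hp, Dvd.dvd.mul_right hpa b, h2⟩
    · by_cases h3 : jacobiSym b 7 = -1
      · obtain ⟨p, hp, hpb, h2⟩ := hb h3
        exact ⟨p, hp, Dvd.dvd.mul_left hpb a, h2⟩
      · exfalso
        rcases jacobiSym.trichotomy (a : ℤ) 7 with e | e | e
        · rw [e] at h; norm_num at h
        · rcases jacobiSym.trichotomy (b : ℤ) 7 with f | f | f
          · rw [e, f] at h; norm_num at h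
          · rw [e, f] at h; norm_num at h
          · exact h3 f
        · exact h1 e

lemma jac_seven (p : ℕ) (hp : Odd p) (h : jacobiSym p 7 = -1) : jacobiSym (-7) p = -1 := by
  rw [jacobiSym.neg 7 hp]
  have hp2 := Nat.odd_iff.mp hp
  have h4 : p % 4 = 1 ∨ p % 4 = 3 := by omega
  rcases h4 with h4 | h4
  · have := jacobiSym.quadratic_reciprocity_one_mod_four' (a := 7) (by decide) h4
    rw [ZMod.χ₄_nat_one_mod_four h4]
    push_cast at this
    rw [this, h]; norm_num
  · have := jacobiSym.quadratic_reciprocity_three_mod_four (a := 7) (by norm_num) h4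
    rw [ZMod.χ₄_nat_three_mod_four h4]
    push_cast at this
    rw [this, h]; norm_num

theorem main (n : ℕ) (hn : n % 4 = 1) (h7 : jacobiSym n 7 = -1) :
    (M 42 (-7) n).det = 0 ∧ (M 21 112 n).det = 0 := by
  by_cases hsq : Squarefree n
  · obtain ⟨p, hp, hpn, hp7⟩ := exists_prime n h7
    obtain ⟨m, rfl⟩ := hpn
    haveI : Fact p.Prime := ⟨hp⟩
    have hodd : Odd (p * m) := Nat.odd_iff.mpr (by omega)
    have hpo : Odd p := (Nat.odd_mul.mp hodd).1
    have hmo : Odd m := (Nat.odd_mul.mp hodd).2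
    have hp2 : p ≠ 2 := by rintro rfl; exact absurd hpo (by decide)
    have hm7 : jacobiSym (-7) p = -1 := jac_seven p hpo hp7
    have hq : quadraticChar (ZMod p) (-7) = -1 := by
      have := jac_prime p (-7)
      rw [hm7] at this
      push_cast at this
      exact this.symm
    obtain ⟨hS1, hS2⟩ := S_zero p hp2 hq
    have hpm : ¬ p ∣ m := by
      intro h
      have := hsq p (Nat.mul_dvd_mul_left p h)
      exact hp.one_lt.ne' (Nat.isUnit_iff.mp this)
    have hS1' : S p ((21 : ℤ) : ZMod p) ((112 : ℤ) : ZMod p) = 0 := by push_cast; exact hS1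
    have hS2' : S p ((42 : ℤ) : ZMod p) ((-7 : ℤ) : ZMod p) = 0 := by push_cast; exact hS2
    by_cases hm1 : m = 1
    · subst hm1
      rw [mul_one] at hn ⊢
      have hd1 : quadraticChar (ZMod p) ((-7 : ℤ) : ZMod p) = -1 := by push_cast; exact hq
      have hd2 : quadraticChar (ZMod p) ((112 : ℤ) : ZMod p) = -1 := by
        rw [← jac_prime, show (112 : ℤ) = 4 ^ 2 * (-(-7)) by norm_num, jacobiSym.mul_left,
          jacobiSym.neg _ hpo, ZMod.χ₄_nat_one_mod_four hn, hm7, jacobiSym.pow_left,
          jacobiSym.at_four hpo]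
        norm_num
      exact ⟨det_prime 42 (-7) p hn hS2' hd1, det_prime 21 112 p hn hS1' hd2⟩
    · have hm3 : 3 ≤ m := by
        have h1 := Nat.odd_iff.mp hmo
        omega
      exact ⟨det_composite 42 (-7) p m hp2 hm3 hpm hS2', det_composite 21 112 p m hp2 hm3 hpm hS1'⟩
  · rw [Nat.squarefree_iff_prime_squarefree] at hsq
    push Not at hsq
    obtain ⟨q, hq, r, hr⟩ := hsq
    have hr0 : 0 < r := by
      rcases Nat.eq_zero_or_pos r with h | h
      · rw [h] at hr; omega
      · exact h
    have hq3 : 3 ≤ q := by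
      have h2 := hq.two_le
      have h3 : q ≠ 2 := by
        rintro rfl
        omega
      omega
    rw [mul_assoc] at hr
    exact ⟨det_square _ _ n q r hr hq3 hr0, det_square _ _ n q r hr hq3 hr0⟩

end Pool.Agent.Q280.JD
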