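import Mathlib
import Pool.Agent.Q280.JD.Kernel
import Pool.Agent.Q280.JD.CircEven

/-!
The Legendre symbol determinants for quadratic nonresidues modulo `p ≡ 1 (mod 4)`.
-/

namespace Pool.Agent.Q280.JD.Ev

open Finset Matrix Equiv

section basics

variable (p : ℕ) [Fact p.Prime] (M : ℕ)

/-- a primitive root modulo `p = 4M + 5` -/
structure PR where
  g : ZMod p
  hg : IsPrimitiveRoot g (4 * M + 4)

lemma exists_PR (hp : p = 4 * M + 5) : Nonempty (PR p M) := by
  obtain ⟨g, hg⟩ := IsCyclic.exists_generator (α := (ZMod p)ˣ)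
  have hcard : orderOf g = p - 1 := by
    rw [orderOf_eq_card_of_forall_mem_zpowers hg, Nat.card_eq_fintype_card, ZMod.card_units]
  refine ⟨⟨(g : ZMod p), ?_⟩⟩
  have h1 := IsPrimitiveRoot.orderOf g
  rw [hcard, show p - 1 = 4 * M + 4 by omega] at h1
  exact (IsPrimitiveRoot.coe_units_iff).mpr h1

lemma two_ne (hp : p = 4 * M + 5) : (2 : ZMod p) ≠ 0 := by
  intro h
  have h1 : ((2 : ℕ) : ZMod p) = 0 := by exact_mod_cast h
  rw [ZMod.natCast_eq_zero_iff] at h1
  have := Nat.le_of_dvd (by norm_num) h1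
  omega

lemma char_ne (hp : p = 4 * M + 5) : ringChar (ZMod p) ≠ 2 := by
  rw [ZMod.ringChar_zmod_n]; omega

lemma chi_pow (hp : p = 4 * M + 5) (x : ZMod p) :
    ((quadraticChar (ZMod p) x : ℤ) : ZMod p) = x ^ (M + M + 2) := by
  rw [quadraticChar_eq_pow_of_char_ne_two' (char_ne p M hp), ZMod.card]
  congr 1
  omega

/-- two signs agreeing modulo `p` are equal -/
lemma sign_ext (hp : p = 4 * M + 5) (a b : ℤ) (ha : a = 1 ∨ a = -1) (hb : b = 1 ∨ b = -1)
    (h : (a : ZMod p) = b) : a = b := by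
  have h2 := two_ne p M hp
  rcases ha with rfl | rfl <;> rcases hb with rfl | rfl
  · rfl
  · exfalso; apply h2; push_cast at h; linear_combination h
  · exfalso; apply h2; push_cast at h; linear_combination -h
  · rfl

lemma chi_pm (x : ZMod p) (hx : x ≠ 0) :
    quadraticChar (ZMod p) x = 1 ∨ quadraticChar (ZMod p) x = -1 :=
  quadraticChar_dichotomy hx

lemma chi_mul_self (x : ZMod p) (hx : x ≠ 0) :
    quadraticChar (ZMod p) x * quadraticChar (ZMod p) x = 1 := by
  rw [← sq]; exact quadraticChar_sq_one hx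

lemma chi_m1 (hp : p = 4 * M + 5) : quadraticChar (ZMod p) (-1) = 1 := by
  apply sign_ext p M hp _ _ (chi_pm p _ (neg_ne_zero.mpr one_ne_zero)) (Or.inl rfl)
  rw [chi_pow p M hp, show M + M + 2 = 2 * (M + 1) by ring, pow_mul]
  norm_num

lemma chi_neg' (hp : p = 4 * M + 5) (x : ZMod p) :
    quadraticChar (ZMod p) (-x) = quadraticChar (ZMod p) x := by
  rw [← neg_one_mul, map_mul, chi_m1 p M hp, one_mul]

lemma chi_2 (hp : p = 4 * M + 5) : quadraticChar (ZMod p) 2 = (-1) ^ (M + 1) := by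
  have h1 := jac_prime p 2
  rw [jacobiSym.at_two (Nat.odd_iff.mpr (by omega)), ZMod.χ₈_nat_eq_if_mod_eight] at h1
  rw [if_neg (by omega)] at h1
  push_cast at h1
  rw [← h1]
  rcases Nat.even_or_odd M with h | h
  · have : Odd (M + 1) := h.add_one
    rw [this.neg_one_pow, if_neg]
    obtain ⟨a, ha⟩ := h
    omega
  · have : Even (M + 1) := h.add_one
    rw [this.neg_one_pow, if_pos]
    obtain ⟨a, ha⟩ := h
    omega

lemma n_half (hp : p = 4 * M + 5) : 2 * ((M + M + 2 : ℕ) : ZMod p) = -1 := by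
  have h : ((4 * M + 5 : ℕ) : ZMod p) = 0 := by rw [← hp]; exact ZMod.natCast_self p
  push_cast at h ⊢
  linear_combination h

lemma n_ne (hp : p = 4 * M + 5) : ((M + M + 2 : ℕ) : ZMod p) ≠ 0 := by
  intro h
  have := n_half p M hp
  rw [h, mul_zero] at this
  exact absurd this.symm (neg_ne_zero.mpr one_ne_zero)

lemma chi_n (hp : p = 4 * M + 5) :
    quadraticChar (ZMod p) ((M + M + 2 : ℕ) : ZMod p) = quadraticChar (ZMod p) 2 := by
  have h := congrArg (quadraticChar (ZMod p)) (n_half p M hp)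
  rw [map_mul, chi_m1 p M hp] at h
  have h2 := chi_mul_self p 2 (two_ne p M hp)
  calc quadraticChar (ZMod p) ((M + M + 2 : ℕ) : ZMod p)
      = (quadraticChar (ZMod p) 2 * quadraticChar (ZMod p) 2) *
        quadraticChar (ZMod p) ((M + M + 2 : ℕ) : ZMod p) := by rw [h2, one_mul]
    _ = quadraticChar (ZMod p) 2 * (quadraticChar (ZMod p) 2 *
        quadraticChar (ZMod p) ((M + M + 2 : ℕ) : ZMod p)) := by ring
    _ = _ := by rw [h, mul_one]

variable {p M} (G : PR p M)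

lemma PR.ne (k : ℕ) : G.g ^ k ≠ 0 := pow_ne_zero _ (G.hg.ne_zero (by omega))

lemma PR.half : G.g ^ (M + M + 2) = -1 := by
  have h2 : (G.g ^ (M + M + 2)) ^ 2 = 1 := by
    rw [← pow_mul, show (M + M + 2) * 2 = 4 * M + 4 by ring, G.hg.pow_eq_one]
  rcases mul_self_eq_one_iff.mp (show G.g ^ (M + M + 2) * G.g ^ (M + M + 2) = 1 by
    rw [← sq]; exact h2) with h5 | h5
  · exfalso
    have := G.hg.dvd_of_pow_eq_one _ h5
    have := Nat.le_of_dvd (by omega) this
    omega
  · exact h5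

lemma PR.chi_g (hp : p = 4 * M + 5) : quadraticChar (ZMod p) G.g = -1 := by
  have h := G.ne 1
  rw [pow_one] at h
  apply sign_ext p M hp _ _ (chi_pm p _ h) (Or.inr rfl)
  rw [chi_pow p M hp, G.half]
  push_cast; rfl

lemma PR.chi_pow (hp : p = 4 * M + 5) (k : ℕ) : quadraticChar (ZMod p) (G.g ^ k) = (-1) ^ k := by
  rw [map_pow, G.chi_g hp]

/-- the generator of the squares -/
def PR.r : ZMod p := G.g ^ 2

lemma PR.r_prim : IsPrimitiveRoot G.r (M + M + 2) := by
  unfold PR.r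
  exact G.hg.pow (by omega) (by ring)

lemma PR.chi_r (hp : p = 4 * M + 5) (k : ℕ) : quadraticChar (ZMod p) (G.r ^ k) = 1 := by
  unfold PR.r
  rw [← pow_mul, G.chi_pow hp, pow_mul]
  norm_num

lemma PR.r_ne (k : ℕ) : G.r ^ k ≠ 0 := by
  unfold PR.r
  rw [← pow_mul]
  exact G.ne _

/-- every nonzero residue is a power of `g` -/
lemma PR.exists_pow (hp : p = 4 * M + 5) (x : ZMod p) (hx : x ≠ 0) :
    ∃ k : ℕ, k < 4 * M + 4 ∧ G.g ^ k = x := by
  apply G.hg.eq_pow_of_pow_eq_one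
  rw [show 4 * M + 4 = p - 1 by omega]
  exact ZMod.pow_card_sub_one_eq_one hx

end basics

section enum

variable {p : ℕ} [Fact p.Prime] {M : ℕ} (G : PR p M)

/-- the absolute value of the least absolute residue -/
def ab (x : ZMod p) : ℕ := x.valMinAbs.natAbs

lemma ab_cast (x : ZMod p) : ((ab x : ℕ) : ZMod p) = x ∨ ((ab x : ℕ) : ZMod p) = -x := by
  have h : ((x.valMinAbs : ℤ) : ZMod p) = x := ZMod.coe_valMinAbs x
  have e : ((ab x : ℕ) : ZMod p) = (((x.valMinAbs.natAbs : ℕ) : ℤ) : ZMod p) := by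
    rw [Int.cast_natCast]; rfl
  rw [e]
  rcases Int.natAbs_eq x.valMinAbs with h1 | h1
  · left
    rw [← h1, h]
  · right
    have h2 : ((x.valMinAbs.natAbs : ℕ) : ℤ) = -x.valMinAbs := by omega
    rw [h2, Int.cast_neg, h]

lemma ab_pos (x : ZMod p) (hx : x ≠ 0) : 1 ≤ ab x := by
  have h := ab_cast x
  rcases Nat.eq_zero_or_pos (ab x) with h0 | h0
  · exfalso
    rw [h0] at h
    rcases h with h | h
    · rw [Nat.cast_zero] at h; exact hx h.symm
    · rw [Nat.cast_zero] at h; exact hx (neg_eq_zero.mp h.symm)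
  · exact h0

lemma ab_le (hp : p = 4 * M + 5) (x : ZMod p) : ab x ≤ M + M + 2 := by
  have h := ZMod.natAbs_valMinAbs_le x
  unfold ab
  omega

/-- the enumeration of `1, ..., (p-1)/2` -/
def PR.th (hp : p = 4 * M + 5) (i : Fin (M + M + 2)) : Fin (M + M + 2) :=
  ⟨ab (G.g ^ (i : ℕ)) - 1, by
    have h1 := ab_le hp (G.g ^ (i : ℕ))
    have h2 := ab_pos _ (G.ne (i : ℕ))
    omega⟩

lemma PR.th_val (hp : p = 4 * M + 5) (i : Fin (M + M + 2)) :
    (G.th hp i : ℕ) + 1 = ab (G.g ^ (i : ℕ)) := by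
  have h2 := ab_pos _ (G.ne (i : ℕ))
  simp only [PR.th]
  omega

lemma PR.th_bij (hp : p = 4 * M + 5) : Function.Bijective (G.th hp) := by
  apply Function.Injective.bijective_of_finite
  intro a b h
  have h1 : ab (G.g ^ (a : ℕ)) = ab (G.g ^ (b : ℕ)) := by
    rw [← G.th_val hp, ← G.th_val hp, h]
  have h2 : G.g ^ (a : ℕ) = G.g ^ (b : ℕ) ∨ G.g ^ (a : ℕ) = -G.g ^ (b : ℕ) := by
    have e1 := ab_cast (G.g ^ (a : ℕ))
    have e2 := ab_cast (G.g ^ (b : ℕ))
    rw [h1] at e1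
    rcases e1 with e1 | e1 <;> rcases e2 with e2 | e2
    · left; exact e1.symm.trans e2
    · right; exact e1.symm.trans e2
    · right; rw [← e2, e1, neg_neg]
    · left; exact neg_injective (e1.symm.trans e2)
  rcases h2 with h2 | h2
  · exact Fin.ext (G.hg.pow_inj (by omega) (by omega) h2)
  · exfalso
    have h3 : G.g ^ (a : ℕ) = G.g ^ ((b : ℕ) + (M + M + 2)) := by
      rw [pow_add, G.half, h2]; ring
    have h4 := G.hg.pow_inj (by omega) (by omega) h3
    omega

/-- the value at the enumeration -/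
lemma PR.th_cast (hp : p = 4 * M + 5) (i : Fin (M + M + 2)) :
    (((G.th hp i : ℕ) + 1 : ℕ) : ZMod p) = G.g ^ (i : ℕ) ∨
      (((G.th hp i : ℕ) + 1 : ℕ) : ZMod p) = -G.g ^ (i : ℕ) := by
  rw [G.th_val hp]
  exact ab_cast _

lemma PR.sum_half (hp : p = 4 * M + 5) (F : ZMod p → ℤ) (hF : ∀ x, F (-x) = F x) :
    ∑ i : Fin (M + M + 2), F (((i : ℕ) + 1 : ℕ) : ZMod p) =
      ∑ i : Fin (M + M + 2), F (G.g ^ (i : ℕ)) := by
  rw [← Equiv.sum_comp (Equiv.ofBijective _ (G.th_bij hp))]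
  apply Finset.sum_congr rfl
  intro i _
  rw [Equiv.ofBijective_apply]
  rcases G.th_cast hp i with h | h <;> rw [h]
  exact hF _

lemma PR.prod_half (hp : p = 4 * M + 5) (F : ZMod p → ℤ) (hF : ∀ x, F (-x) = F x) :
    ∏ i : Fin (M + M + 2), F (((i : ℕ) + 1 : ℕ) : ZMod p) =
      ∏ i : Fin (M + M + 2), F (G.g ^ (i : ℕ)) := by
  rw [← Equiv.prod_comp (Equiv.ofBijective _ (G.th_bij hp))]
  apply Finset.prod_congr rfl
  intro i _
  rw [Equiv.ofBijective_apply]
  rcases G.th_cast hp i with h | h <;> rw [h]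
  exact hF _

include G in
/-- the quadratic character of the factorial -/
lemma chi_fact (hp : p = 4 * M + 5) :
    quadraticChar (ZMod p) (((M + M + 2).factorial : ℕ) : ZMod p) = (-1) ^ (M + 1) := by
  have h1 : quadraticChar (ZMod p) (((M + M + 2).factorial : ℕ) : ZMod p) =
      ∏ i : Fin (M + M + 2), quadraticChar (ZMod p) (((i : ℕ) + 1 : ℕ) : ZMod p) := by
    rw [← Finset.prod_range_add_one_eq_factorial, Nat.cast_prod, map_prod,
      Fin.prod_univ_eq_prod_range (fun i => quadraticChar (ZMod p) ((i + 1 : ℕ) : ZMod p))]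
  rw [h1, G.prod_half hp _ (chi_neg' p M hp)]
  simp only [G.chi_pow hp]
  rw [Finset.prod_pow_eq_pow_sum, Fin.sum_univ_eq_sum_range (fun i => i)]
  have h2 := Finset.sum_range_id_mul_two (M + M + 2)
  have h3 : ∑ i ∈ range (M + M + 2), i = (M + 1) * (2 * M + 1) := by
    rw [show M + M + 2 - 1 = 2 * M + 1 by omega] at h2
    nlinarith
  rw [h3, pow_mul]
  rcases neg_one_pow_eq_or ℤ (M + 1) with h4 | h4
  · rw [h4, one_pow]
  · rw [h4]
    exact Odd.neg_one_pow ⟨M, rfl⟩

end enum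

section fact

variable (p : ℕ) [Fact p.Prime] (M : ℕ)

lemma fact_ne (b : ℕ) (hb : b < p) : ((b.factorial : ℕ) : ZMod p) ≠ 0 := by
  intro h
  rw [ZMod.natCast_eq_zero_iff] at h
  exact absurd ((Nat.Prime.dvd_factorial Fact.out).mp h) (by omega)

/-- the character of a factorial -/
noncomputable def fc (b : ℕ) : ℤ := quadraticChar (ZMod p) ((b.factorial : ℕ) : ZMod p)

lemma fc_sq (b : ℕ) (hb : b < p) : fc p b * fc p b = 1 := chi_mul_self p _ (fact_ne p b hb)

lemma fc_succ (b : ℕ) : fc p (b + 1) = quadraticChar (ZMod p) ((b + 1 : ℕ) : ZMod p) * fc p b := by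
  unfold fc
  rw [Nat.factorial_succ, Nat.cast_mul, map_mul]

lemma prod_fc (m : ℕ) (hm : 2 * m < p) :
    ∏ b ∈ range (2 * m + 1), fc p b = quadraticChar (ZMod p) 2 ^ m * fc p m := by
  induction m with
  | zero => simp [fc]
  | succ m ih =>
    rw [show 2 * (m + 1) + 1 = 2 * m + 1 + 1 + 1 by ring, Finset.prod_range_succ,
      Finset.prod_range_succ, ih (by omega)]
    have h1 := fc_sq p (2 * m + 1) (by omega)
    rw [fc_succ p (2 * m + 1), fc_succ p m]
    have h2 : quadraticChar (ZMod p) ((2 * m + 1 + 1 : ℕ) : ZMod p) =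
        quadraticChar (ZMod p) 2 * quadraticChar (ZMod p) ((m + 1 : ℕ) : ZMod p) := by
      rw [← map_mul]
      congr 1
      push_cast
      ring
    rw [h2, pow_succ]
    linear_combination (quadraticChar (ZMod p) 2 ^ m * fc p m * quadraticChar (ZMod p) 2 *
      quadraticChar (ZMod p) ((m + 1 : ℕ) : ZMod p)) * h1

lemma chi_choose (n b : ℕ) (hn : n < p) (hb : b ≤ n) :
    quadraticChar (ZMod p) ((n.choose b : ℕ) : ZMod p) = fc p n * (fc p b * fc p (n - b)) := by
  have h := Nat.choose_mul_factorial_mul_factorial hb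
  have h1 := fc_sq p b (by omega)
  have h2 := fc_sq p (n - b) (by omega)
  have h3 : fc p n = quadraticChar (ZMod p) ((n.choose b : ℕ) : ZMod p) * fc p b * fc p (n - b) := by
    unfold fc
    rw [← h, Nat.cast_mul, Nat.cast_mul, map_mul, map_mul]
  rw [h3]
  linear_combination (-quadraticChar (ZMod p) ((n.choose b : ℕ) : ZMod p) *
    (fc p (n - b) * fc p (n - b))) * h1 - quadraticChar (ZMod p) ((n.choose b : ℕ) : ZMod p) * h2

variable {p M}

lemma pow_mul_prod {R : Type*} [CommRing R] (c : R) (f : ℕ → R) (N : ℕ) :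
    c ^ N * ∏ k ∈ range N, f k = ∏ k ∈ range N, c * f k := by
  rw [Finset.prod_mul_distrib, Finset.prod_const, Finset.card_range]

lemma prod_choose (G : PR p M) (hp : p = 4 * M + 5) :
    ∏ b ∈ range M, quadraticChar (ZMod p) (((M + M + 2).choose (b + 1) : ℕ) : ZMod p) = 1 := by
  have h1 : ∏ b ∈ range M, quadraticChar (ZMod p) (((M + M + 2).choose (b + 1) : ℕ) : ZMod p) =
      fc p (M + M + 2) ^ M * ((∏ b ∈ range M, fc p (b + 1)) *
        ∏ b ∈ range M, fc p (M + M + 2 - (b + 1))) := by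
    rw [← Finset.prod_mul_distrib, pow_mul_prod]
    apply Finset.prod_congr rfl
    intro b hb
    have hb' := Finset.mem_range.mp hb
    exact chi_choose p _ _ (by omega) (by omega)
  have h2 := prod_fc p (M + 1) (by omega)
  rw [show 2 * (M + 1) + 1 = (M + 2) + (M + 1) by ring, Finset.prod_range_add,
    Finset.prod_range_succ, Finset.prod_range_succ', Finset.prod_range_succ] at h2
  have h3 : ∏ x ∈ range M, fc p (M + 2 + x) = ∏ b ∈ range M, fc p (M + M + 2 - (b + 1)) := by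
    rw [← Finset.prod_range_reflect]
    apply Finset.prod_congr rfl
    intro a ha
    have ha' := Finset.mem_range.mp ha
    congr 1
    omega
  have h0 : fc p 0 = 1 := by simp [fc]
  rw [h3, h0, mul_one, show M + 2 + M = M + M + 2 by ring] at h2
  have h4 : fc p (M + M + 2) = quadraticChar (ZMod p) 2 := by
    unfold fc
    rw [chi_fact G hp, chi_2 p M hp]
  have h5 := fc_sq p (M + 1) (by omega)
  have h6 := chi_mul_self p 2 (two_ne p M hp)
  rw [h1]
  rw [h4] at h2 ⊢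
  have h7 : quadraticChar (ZMod p) 2 ^ M * quadraticChar (ZMod p) 2 ^ M = 1 := by
    rw [← mul_pow, h6, one_pow]
  rw [pow_succ] at h2
  have h8 : ((∏ b ∈ range M, fc p (b + 1)) * ∏ b ∈ range M, fc p (M + M + 2 - (b + 1))) =
      quadraticChar (ZMod p) 2 ^ M := by
    have e : fc p (M + 1) * quadraticChar (ZMod p) 2 ≠ 0 := by
      intro h
      have : (fc p (M + 1) * quadraticChar (ZMod p) 2) * (fc p (M + 1) * quadraticChar (ZMod p) 2) = 1 := by
        linear_combination (quadraticChar (ZMod p) 2 * quadraticChar (ZMod p) 2) * h5 + h6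
      rw [h] at this
      norm_num at this
    apply mul_right_cancel₀ e
    linear_combination h2
  rw [h8, h7]

/-- the product of sines -/
lemma prod_sines (G : PR p M) (hp : p = 4 * M + 5) :
    (2 * ∏ k ∈ range M, (G.g ^ (k + 1) - (G.g ^ (k + 1))⁻¹)) ^ 2 = (-1) ^ (M + 1) := by
  have h1 := IsPrimitiveRoot.prod_one_sub_pow_eq_order (n := M + M + 1) (G.r_prim)
  rw [show M + M + 1 = M + 1 + M by ring, Finset.prod_range_add, Finset.prod_range_succ] at h1
  have h2 : ∏ x ∈ range M, (1 - G.r ^ (M + 1 + x + 1)) =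
      ∏ k ∈ range M, (1 - (G.r ^ (k + 1))⁻¹) := by
    rw [← Finset.prod_range_reflect]
    apply Finset.prod_congr rfl
    intro a ha
    have ha' := Finset.mem_range.mp ha
    congr 1
    apply eq_inv_of_mul_eq_one_left
    rw [← pow_add,
      show M + 1 + (M - 1 - a) + 1 + (a + 1) = M + M + 2 by omega, G.r_prim.pow_eq_one]
  have h3 : G.r ^ (M + 1) = -1 := by
    unfold PR.r
    rw [← pow_mul, show 2 * (M + 1) = M + M + 2 by ring, G.half]
  rw [h2, h3] at h1
  have h4 : (∏ k ∈ range M, (1 - G.r ^ (k + 1))) * ∏ k ∈ range M, (1 - (G.r ^ (k + 1))⁻¹) =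
      (-1) ^ M * (∏ k ∈ range M, (G.g ^ (k + 1) - (G.g ^ (k + 1))⁻¹)) ^ 2 := by
    rw [← Finset.prod_mul_distrib, ← Finset.prod_pow, pow_mul_prod]
    apply Finset.prod_congr rfl
    intro k _
    have h5 : G.g ^ (k + 1) ≠ 0 := G.ne _
    have h6 : G.r ^ (k + 1) = (G.g ^ (k + 1)) ^ 2 := by
      unfold PR.r
      rw [← pow_mul, ← pow_mul, mul_comm]
    rw [h6]
    field_simp
    ring
  have h5 := n_half p M hp
  have h6 : ((-1 : ZMod p) ^ M) * (-1) ^ M = 1 := by
    rw [← mul_pow]; norm_num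
  push_cast at h1 h5
  rw [pow_succ]
  linear_combination (2 * (-1) ^ M) * h1 + (-1) ^ M * h5 - (4 * (-1) ^ M) * h4 +
    (-4 * (∏ k ∈ range M, (G.g ^ (k + 1) - (G.g ^ (k + 1))⁻¹)) ^ 2) * h6

lemma chi_sines (G : PR p M) (hp : p = 4 * M + 5) :
    quadraticChar (ZMod p) (∏ k ∈ range M, (G.g ^ (k + 1) - (G.g ^ (k + 1))⁻¹)) = 1 := by
  set X := ∏ k ∈ range M, (G.g ^ (k + 1) - (G.g ^ (k + 1))⁻¹) with hX
  have h1 := prod_sines G hp
  rw [← hX] at h1
  have h0 : (2 * X) ≠ 0 := by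
    intro h
    rw [h] at h1
    have : ((-1 : ZMod p) ^ (M + 1)) ≠ 0 := pow_ne_zero _ (neg_ne_zero.mpr one_ne_zero)
    exact this (by rw [← h1]; ring)
  have h2 : quadraticChar (ZMod p) (2 * X) = (-1) ^ (M + 1) := by
    apply sign_ext p M hp _ _ (chi_pm p _ h0) (neg_one_pow_eq_or ℤ _)
    rw [chi_pow p M hp, show M + M + 2 = 2 * (M + 1) by ring, pow_mul, h1, ← pow_mul]
    push_cast
    rcases Nat.even_or_odd (M + 1) with h | h
    · rw [h.neg_one_pow, (h.mul_left _).neg_one_pow]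
    · rw [h.neg_one_pow, (h.mul h).neg_one_pow]
  rw [map_mul, chi_2 p M hp] at h2
  have h3 : ((-1 : ℤ) ^ (M + 1)) ≠ 0 := pow_ne_zero _ (by norm_num)
  exact mul_left_cancel₀ h3 (h2.trans (mul_one _).symm)

end fact

section main

variable {p : ℕ} [Fact p.Prime] {M : ℕ} (G : PR p M)

/-- the basic antisymmetric function -/
noncomputable def PR.V (i : Ev.G M) : ℤ := quadraticChar (ZMod p) (G.r ^ i.val + G.g)

lemma PR.r_add (i j : Ev.G M) : G.r ^ (i + j).val = G.r ^ i.val * G.r ^ j.val :=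
  E_add M G.r G.r_prim i j

lemma PR.r_sub (i j : Ev.G M) : G.r ^ (i - j).val = G.r ^ i.val / G.r ^ j.val := by
  rw [eq_div_iff (G.r_ne _), ← G.r_add, sub_add_cancel]

lemma PR.r_one : G.r ^ (1 : Ev.G M).val = G.r := by
  have : (1 : Ev.G M).val = 1 := by rw [Fin.val_one]
  rw [this, pow_one]

lemma PR.arg_ne (hp : p = 4 * M + 5) (k : ℕ) : G.r ^ k + G.g ≠ 0 := by
  intro h
  have h1 : G.g = -G.r ^ k := by linear_combination h
  have h2 := G.chi_g hp
  rw [h1, chi_neg' p M hp, G.chi_r hp] at h2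
  norm_num at h2

lemma PR.V_odd (hp : p = 4 * M + 5) (i : Ev.G M) : G.V i % 2 = 1 := by
  rcases chi_pm p _ (G.arg_ne hp i.val) with h | h
  · unfold PR.V; rw [h]; rfl
  · unfold PR.V; rw [h]; rfl

lemma PR.V_anti (hp : p = 4 * M + 5) (i : Ev.G M) : G.V (1 - i) = -G.V i := by
  unfold PR.V
  rw [G.r_sub, G.r_one]
  have h0 := G.r_ne i.val
  have hg : G.g ≠ 0 := by have := G.ne 1; rwa [pow_one] at this
  have e : G.r / G.r ^ i.val + G.g = (G.g * (G.r ^ i.val + G.g)) / G.r ^ i.val := by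
    have : G.r = G.g ^ 2 := rfl
    rw [div_add' _ _ _ h0]
    congr 1
    conv_lhs => rw [this]
    conv_rhs => rw [this]
    ring
  rw [e, chi_div p _ _ h0, G.chi_r hp, mul_one, map_mul, G.chi_g hp, neg_one_mul]

/-- Fourier coefficients of `V` -/
lemma PR.ft_V (hp : p = 4 * M + 5) (b : ℕ) (hb : b < M) :
    ft M G.r (fun x => ((G.V x : ℤ) : ZMod p)) (b + 1) =
      ((M + M + 2 : ℕ) : ZMod p) * (((M + M + 2).choose (b + 1) : ℕ) : ZMod p) * G.g ^ (b + 1) := by
  unfold ft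
  have h1 : ∀ k : Ev.G M, ((G.V k : ℤ) : ZMod p) * E M G.r k ^ (b + 1) =
      ∑ m ∈ range (M + M + 2 + 1), (G.g ^ (M + M + 2 - m) * (((M + M + 2).choose m : ℕ) : ZMod p)) *
        (G.r ^ (m + (b + 1))) ^ k.val := by
    intro k
    unfold PR.V E
    rw [Ev.chi_pow p M hp, add_pow, Finset.sum_mul]
    apply Finset.sum_congr rfl
    intro m _
    rw [← pow_mul, ← pow_mul, ← pow_mul]
    have : G.r ^ ((m + (b + 1)) * k.val) = G.r ^ (k.val * m) * G.r ^ (k.val * (b + 1)) := by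
      rw [← pow_add]; congr 1; ring
    rw [this]; ring
  rw [Finset.sum_congr rfl (fun k _ => h1 k), Finset.sum_comm]
  have h2 : ∀ m ∈ range (M + M + 2 + 1), ∑ k : Ev.G M, (G.g ^ (M + M + 2 - m) *
      (((M + M + 2).choose m : ℕ) : ZMod p)) * (G.r ^ (m + (b + 1))) ^ k.val =
      if m = M + M + 2 - (b + 1) then ((M + M + 2 : ℕ) : ZMod p) *
        (((M + M + 2).choose (b + 1) : ℕ) : ZMod p) * G.g ^ (b + 1) else 0 := by
    intro m hm
    have hm' := Finset.mem_range.mp hm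
    rw [← Finset.mul_sum, Fin.sum_univ_eq_sum_range (fun k => (G.r ^ (m + (b + 1))) ^ k)]
    by_cases h : m = M + M + 2 - (b + 1)
    · rw [if_pos h, h, show M + M + 2 - (b + 1) + (b + 1) = M + M + 2 by omega,
        G.r_prim.pow_eq_one]
      simp only [one_pow, Finset.sum_const, Finset.card_range, nsmul_eq_mul, mul_one]
      rw [show M + M + 2 - (M + M + 2 - (b + 1)) = b + 1 by omega,
        Nat.choose_symm (by omega)]
      ring
    · rw [if_neg h]
      have h3 : G.r ^ (m + (b + 1)) ≠ 1 := by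
        intro h4
        have h5 := G.r_prim.dvd_of_pow_eq_one _ h4
        obtain ⟨c, hc⟩ := h5
        rcases Nat.lt_or_ge c 1 with h6 | h6
        · interval_cases c
          omega
        · rcases Nat.lt_or_ge c 2 with h7 | h7
          · have : c = 1 := by omega
            subst this
            omega
          · have : (M + M + 2) * 2 ≤ (M + M + 2) * c := Nat.mul_le_mul_left _ h7
            omega
      have h4 := geom_sum_mul (G.r ^ (m + (b + 1))) (M + M + 1 + 1)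
      have h5 : (G.r ^ (m + (b + 1))) ^ (M + M + 1 + 1) = 1 := by
        rw [← pow_mul, mul_comm, pow_mul, show M + M + 1 + 1 = M + M + 2 from rfl,
          G.r_prim.pow_eq_one, one_pow]
      rw [h5, sub_self] at h4
      rcases mul_eq_zero.mp h4 with h6 | h6
      · rw [h6, mul_zero]
      · exact absurd (sub_eq_zero.mp h6) h3
  rw [Finset.sum_congr rfl h2, Finset.sum_ite_eq' (range (M + M + 2 + 1)), if_pos]
  rw [Finset.mem_range]
  omega

lemma PR.ft_U (hp : p = 4 * M + 5) (U : Ev.G M → ℤ) (hU : ∀ x, G.V x = U (x - 1) - U x)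
    (b : ℕ) (hb : b < M) :
    ft M G.r (fun x => ((U x : ℤ) : ZMod p)) (b + 1) * (G.g ^ (b + 1) - (G.g ^ (b + 1))⁻¹) =
      ((M + M + 2 : ℕ) : ZMod p) * (((M + M + 2).choose (b + 1) : ℕ) : ZMod p) := by
  have h1 := G.ft_V hp b hb
  have h2 : ft M G.r (fun x => ((G.V x : ℤ) : ZMod p)) (b + 1) =
      (G.r ^ (b + 1) - 1) * ft M G.r (fun x => ((U x : ℤ) : ZMod p)) (b + 1) := by
    unfold ft
    have e1 : ∀ x : Ev.G M, ((G.V x : ℤ) : ZMod p) * E M G.r x ^ (b + 1) =
        ((U (x - 1) : ℤ) : ZMod p) * E M G.r x ^ (b + 1) -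
        ((U x : ℤ) : ZMod p) * E M G.r x ^ (b + 1) := by
      intro x
      rw [hU x]; push_cast; ring
    rw [Finset.sum_congr rfl (fun x _ => e1 x), Finset.sum_sub_distrib]
    have e2 : ∑ x : Ev.G M, ((U (x - 1) : ℤ) : ZMod p) * E M G.r x ^ (b + 1) =
        G.r ^ (b + 1) * ∑ x : Ev.G M, ((U x : ℤ) : ZMod p) * E M G.r x ^ (b + 1) := by
      rw [← Equiv.sum_comp (Equiv.addRight (1 : Ev.G M))
        (fun x => ((U (x - 1) : ℤ) : ZMod p) * E M G.r x ^ (b + 1)), Finset.mul_sum]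
      apply Finset.sum_congr rfl
      intro x _
      simp only [coe_addRight, add_sub_cancel_right]
      rw [E_add M G.r G.r_prim, mul_pow]
      have : E M G.r 1 = G.r := G.r_one
      rw [this]; ring
    rw [e2]; ring
  rw [h1] at h2
  have h3 : G.g ^ (b + 1) ≠ 0 := G.ne _
  apply mul_right_cancel₀ h3
  rw [h2]
  have h4 : G.r ^ (b + 1) = (G.g ^ (b + 1)) ^ 2 := by
    unfold PR.r
    rw [← pow_mul, ← pow_mul, mul_comm]
  rw [h4]
  field_simp

/-- the constant `t'` is a nonzero square class -/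
lemma PR.chi_t (hp : p = 4 * M + 5) (U : Ev.G M → ℤ) (hU : ∀ x, G.V x = U (x - 1) - U x)
    (hsym : ∀ x, U (-x) = U x) (D' : Matrix (Fin M) (Fin M) ℤ) (hD : DE M U = 2 • D') :
    quadraticChar (ZMod p) ((D'.det : ℤ) : ZMod p) = 1 := by
  have h1 := det_DE M G.r G.r_prim (two_ne p M hp) (n_ne p M hp)
    (fun x => ((U x : ℤ) : ZMod p)) (by intro x; rw [hsym])
  have h2 : (DE M (fun x => ((U x : ℤ) : ZMod p))).det = 2 ^ M * ((D'.det : ℤ) : ZMod p) := by
    have e1 : (DE M (fun x => ((U x : ℤ) : ZMod p))).det = (((DE M U).det : ℤ) : ZMod p) := by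
      rw [Int.cast_det]
      congr 1
      ext i j
      simp [DE]
    rw [e1, hD]
    have e2 : (2 • D') = (2 : ℤ) • D' := by
      ext i j
      simp
    rw [e2, det_smul, Fintype.card_fin]
    push_cast
    rfl
  rw [h2] at h1
  have h3 : (2 ^ M * ((D'.det : ℤ) : ZMod p)) *
      ∏ k ∈ range M, (G.g ^ (k + 1) - (G.g ^ (k + 1))⁻¹) =
      ((M + M + 2 : ℕ) : ZMod p) ^ M *
        ∏ b ∈ range M, (((M + M + 2).choose (b + 1) : ℕ) : ZMod p) := by
    rw [h1, ← Finset.prod_mul_distrib, pow_mul_prod]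
    apply Finset.prod_congr rfl
    intro b hb
    exact G.ft_U hp U hU b (Finset.mem_range.mp hb)
  have h4 := congrArg (quadraticChar (ZMod p)) h3
  rw [map_mul, map_mul, map_mul, chi_sines G hp, map_pow, map_pow, map_prod, prod_choose G hp,
    chi_n p M hp, mul_one, mul_one] at h4
  have h5 : (quadraticChar (ZMod p) 2) ^ M ≠ 0 := by
    apply pow_ne_zero
    intro h
    have := chi_mul_self p 2 (two_ne p M hp)
    rw [h] at this
    norm_num at this
  exact mul_left_cancel₀ h5 (h4.trans (mul_one _).symm)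

end main

section final

variable {p : ℕ} [Fact p.Prime] {M : ℕ} (G : PR p M)

lemma PR.th_zero (hp : p = 4 * M + 5) : G.th hp 0 = 0 := by
  apply Fin.ext
  have h := G.th_val hp 0
  have h1 : ab (G.g ^ ((0 : Fin (M + M + 2)) : ℕ)) = 1 := by
    rw [Fin.val_zero, pow_zero]
    unfold ab
    have h3 : ((1 : ZMod p)).valMinAbs = 1 := by
      have := ZMod.valMinAbs_natCast_of_le_half (n := p) (a := 1) (by omega)
      simpa using this
    rw [h3]; rfl
  rw [h1] at h
  rw [Fin.val_zero]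
  omega

lemma PR.th_pos (hp : p = 4 * M + 5) (a : Fin (M + M + 1)) :
    1 ≤ (G.th hp (a.succ : Fin (M + M + 1 + 1)) : ℕ) := by
  rcases Nat.eq_zero_or_pos (G.th hp (a.succ : Fin (M + M + 1 + 1)) : ℕ) with h | h
  · exfalso
    have h1 : G.th hp (a.succ : Fin (M + M + 1 + 1)) = G.th hp 0 := by
      rw [G.th_zero hp]; exact Fin.ext h
    exact Fin.succ_ne_zero a ((G.th_bij hp).1 h1)
  · exact h

/-- the reindexing of the truncated matrix -/
def PR.tt (hp : p = 4 * M + 5) (a : Fin (M + M + 1)) : Fin ((p - 3) / 2) :=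
  ⟨(G.th hp (a.succ : Fin (M + M + 1 + 1)) : ℕ) - 1, by
    have h1 := G.th_pos hp a
    have h2 := (G.th hp (a.succ : Fin (M + M + 1 + 1))).2
    omega⟩

lemma PR.tt_bij (hp : p = 4 * M + 5) : Function.Bijective (G.tt hp) := by
  rw [Fintype.bijective_iff_injective_and_card]
  constructor
  · intro a b h
    have h1 := congrArg Fin.val h
    simp only [PR.tt] at h1
    have h2 := G.th_pos hp a
    have h3 := G.th_pos hp b
    have h4 : G.th hp (a.succ : Fin (M + M + 1 + 1)) = G.th hp (b.succ : Fin (M + M + 1 + 1)) :=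
      Fin.ext (by omega)
    exact Fin.succ_injective _ ((G.th_bij hp).1 h4)
  · simp only [Fintype.card_fin]
    omega

lemma PR.tt_sq (hp : p = 4 * M + 5) (a : Fin (M + M + 1)) :
    (((G.tt hp a : ℕ) : ZMod p) + 2) ^ 2 = G.r ^ (a.succ : Ev.G M).val := by
  have h1 := G.th_pos hp a
  have h2 : ((G.tt hp a : ℕ) : ZMod p) + 2 =
      (((G.th hp (a.succ : Fin (M + M + 1 + 1)) : ℕ) + 1 : ℕ) : ZMod p) := by
    have : (G.th hp (a.succ : Fin (M + M + 1 + 1)) : ℕ) + 1 = (G.tt hp a : ℕ) + 2 := by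
      simp only [PR.tt]
      omega
    rw [this]; push_cast; rfl
  rw [h2]
  unfold PR.r
  rw [← pow_mul, mul_comm, pow_mul]
  rcases G.th_cast hp (a.succ : Fin (M + M + 1 + 1)) with h | h
  · rw [h]
  · rw [h, neg_sq]

/-- the function attached to `d` -/
noncomputable def PR.vd (d : ZMod p) (i : Ev.G M) : ℤ := quadraticChar (ZMod p) (G.r ^ i.val + d)

lemma PR.det_eq (hp : p = 4 * M + 5) (d : ℤ) :
    (Matrix.of fun j k : Fin ((p - 3) / 2) =>
      legendreSym p (((j : ℕ) + 2 : ℤ) ^ 2 + d * ((k : ℕ) + 2 : ℤ) ^ 2)).det =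
    cme M (G.vd (d : ZMod p)) := by
  let e := Equiv.ofBijective _ (G.tt_bij hp)
  rw [← det_submatrix_equiv_self e]
  unfold cme
  congr 1
  ext a b
  simp only [submatrix_apply, of_apply, circulant_apply]
  unfold legendreSym PR.vd
  have h0 := G.r_ne (b.succ : Ev.G M).val
  have h1 : ((((e a : Fin ((p - 3) / 2)) : ℕ) + 2 : ℤ) ^ 2 +
      d * (((e b : Fin ((p - 3) / 2)) : ℕ) + 2 : ℤ) ^ 2 : ℤ) =
      ((((G.tt hp a : ℕ) + 2 : ℤ) ^ 2 + d * ((G.tt hp b : ℕ) + 2 : ℤ) ^ 2 : ℤ)) := rfl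
  rw [h1]
  push_cast
  rw [G.tt_sq, G.tt_sq, G.r_sub]
  have h2 : G.r ^ (a.succ : Ev.G M).val + (d : ZMod p) * G.r ^ (b.succ : Ev.G M).val =
      G.r ^ (b.succ : Ev.G M).val *
        (G.r ^ (a.succ : Ev.G M).val / G.r ^ (b.succ : Ev.G M).val + (d : ZMod p)) := by
    field_simp
  rw [h2, map_mul, G.chi_r hp, one_mul]

lemma PR.B_eq (hp : p = 4 * M + 5) (d : ℤ) :
    ∑ x ∈ Finset.Icc 1 ((p - 1) / 2), legendreSym p ((x : ℤ) * ((x : ℤ) ^ 2 + d)) =
    alt M (G.vd (d : ZMod p)) := by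
  have h1 : ∑ x ∈ Finset.Icc 1 ((p - 1) / 2), legendreSym p ((x : ℤ) * ((x : ℤ) ^ 2 + d)) =
      ∑ i : Fin (M + M + 2), quadraticChar (ZMod p) ((((i : ℕ) + 1 : ℕ) : ZMod p) *
        ((((i : ℕ) + 1 : ℕ) : ZMod p) ^ 2 + d)) := by
    rw [show (p - 1) / 2 = M + M + 2 by omega]
    rw [Fin.sum_univ_eq_sum_range (fun i => quadraticChar (ZMod p) (((i + 1 : ℕ) : ZMod p) *
        (((i + 1 : ℕ) : ZMod p) ^ 2 + d)))]
    rw [Finset.range_eq_Ico, Finset.sum_Ico_add' (fun i => quadraticChar (ZMod p) (((i : ℕ) : ZMod p) *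
        (((i : ℕ) : ZMod p) ^ 2 + d)))]
    apply Finset.sum_congr
    · ext x
      simp only [Finset.mem_Icc, Finset.mem_Ico]
      omega
    · intro x _
      unfold legendreSym
      push_cast
      rfl
  rw [h1, G.sum_half hp (fun x => quadraticChar (ZMod p) (x * (x ^ 2 + (d : ZMod p)))) (by
    intro x
    rw [show (-x) * ((-x) ^ 2 + (d : ZMod p)) = -(x * (x ^ 2 + (d : ZMod p))) by ring,
      chi_neg' p M hp])]
  unfold alt
  apply Finset.sum_congr rfl
  intro i _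
  rw [map_mul, G.chi_pow hp]
  unfold PR.vd PR.r
  rw [← pow_mul, ← pow_mul, mul_comm 2, mul_comm]

include G in
/-- the determinant evaluation, for one modulus -/
theorem main_nonres (hp : p = 4 * M + 5) : ∃ t : ℕ, 0 < t ∧ legendreSym p (t : ℤ) = 1 ∧
    ∀ d : ℤ, legendreSym p d = -1 →
      2 * (Matrix.of fun j k : Fin ((p - 3) / 2) =>
        legendreSym p (((j : ℕ) + 2 : ℤ) ^ 2 + d * ((k : ℕ) + 2 : ℤ) ^ 2)).det =
      4 ^ M * (t : ℤ) ^ 2 * ∑ x ∈ Finset.Icc 1 ((p - 1) / 2),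
        legendreSym p ((x : ℤ) * ((x : ℤ) ^ 2 + d)) := by
  obtain ⟨U, hU, hsym, hs⟩ := exists_U M G.V (G.V_anti hp)
  obtain ⟨D', hD⟩ := DE_even M G.V U hU (G.V_odd hp)
  have hchi := G.chi_t hp U hU hsym D' hD
  have hne : D'.det ≠ 0 := by
    intro h
    rw [h] at hchi
    simp at hchi
  have hcast : ((D'.det.natAbs : ℕ) : ZMod p) = (D'.det : ZMod p) ∨
      ((D'.det.natAbs : ℕ) : ZMod p) = -(D'.det : ZMod p) := by
    rcases Int.natAbs_eq D'.det with h | h
    · left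
      conv_rhs => rw [h]
      rw [Int.cast_natCast]
    · right
      have : ((D'.det.natAbs : ℕ) : ℤ) = -D'.det := by omega
      rw [← Int.cast_neg, ← this, Int.cast_natCast]
  refine ⟨D'.det.natAbs, Int.natAbs_pos.mpr hne, ?_, ?_⟩
  · unfold legendreSym
    rw [Int.cast_natCast]
    rcases hcast with h | h
    · rw [h, hchi]
    · rw [h, chi_neg' p M hp, hchi]
  · intro d hd
    rw [G.det_eq hp, G.B_eq hp, Int.natAbs_sq]
    have hd' : quadraticChar (ZMod p) (d : ZMod p) = -1 := hd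
    have hd0 : (d : ZMod p) ≠ 0 := by
      intro h
      rw [h] at hd'
      simp at hd'
    obtain ⟨e, he, hge⟩ := G.exists_pow hp _ hd0
    have hodd : e % 2 = 1 := by
      rw [← hge, G.chi_pow hp] at hd'
      rcases Nat.even_or_odd e with h | h
      · rw [h.neg_one_pow] at hd'
        norm_num at hd'
      · exact Nat.odd_iff.mp h
    let σ : Ev.G M := ⟨e / 2, by omega⟩
    have hσ : (d : ZMod p) = G.g * G.r ^ σ.val := by
      rw [← hge]
      unfold PR.r
      rw [← pow_mul, ← pow_succ']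
      congr 1
      show e = 2 * (e / 2) + 1
      omega
    have hV : G.V = fun x => G.vd (d : ZMod p) (x + σ) := by
      funext x
      unfold PR.V PR.vd
      rw [G.r_add, hσ]
      rw [show G.r ^ x.val * G.r ^ σ.val + G.g * G.r ^ σ.val =
        G.r ^ σ.val * (G.r ^ x.val + G.g) by ring, map_mul, G.chi_r hp, one_mul]
    have hsum : ∑ x, G.vd (d : ZMod p) x = 0 := by
      have h1 := sum_zero M G.V 1 (G.V_anti hp)
      rw [hV] at h1
      rw [← h1]
      exact (Equiv.sum_comp (Equiv.addRight σ) (G.vd (d : ZMod p))).symm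
    have h1 := cme_main M G.V U hU hsym hs
    have h2 := cme_shift M (G.vd (d : ZMod p)) hsum σ
    have h3 := alt_shift M (G.vd (d : ZMod p)) σ
    rw [← hV] at h2 h3
    rw [h2, h3, hD] at h1
    have e2 : (2 • D') = (2 : ℤ) • D' := by
      ext i j
      simp
    rw [e2, det_smul, Fintype.card_fin] at h1
    have h4 : ((-1 : ℤ) ^ σ.val) ≠ 0 := pow_ne_zero _ (by norm_num)
    apply mul_left_cancel₀ h4
    have h5 : ((2 : ℤ) ^ M * D'.det) ^ 2 = 4 ^ M * D'.det ^ 2 := by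
      rw [mul_pow, ← pow_mul, mul_comm M 2, pow_mul]
      norm_num
    rw [h5] at h1
    linear_combination h1

end final

end Pool.Agent.Q280.JD.Ev
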