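import Mathlib
import Pool.Agent.Q280.JD.Kernel
import Pool.Agent.Q280.JD.Circ

/-!
The truncated determinants `{3,2}_n` for `n ≡ 3 (mod 8)`.
-/

namespace Pool.Agent.Q280.JD

open Finset Matrix

section prime

variable (p : ℕ) [Fact p.Prime]

/-- `f(x) = χ(x² + 3x + 2)`. -/
noncomputable def ff (x : ZMod p) : ℤ := quadraticChar (ZMod p) (x ^ 2 + 3 * x + 2)

lemma chi_neg_one (h : p % 4 = 3) : quadraticChar (ZMod p) (-1) = -1 := by
  have h1 := jac_prime p (-1)
  rw [jacobiSym.at_neg_one (Nat.odd_iff.mpr (by omega)), ZMod.χ₄_nat_three_mod_four h] at h1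
  push_cast at h1
  exact h1.symm

lemma chi_neg (h : p % 4 = 3) (x : ZMod p) :
    quadraticChar (ZMod p) (-x) = -quadraticChar (ZMod p) x := by
  rw [← neg_one_mul, map_mul, chi_neg_one p h, neg_one_mul]

lemma chi_two (h : p % 8 = 3) : quadraticChar (ZMod p) 2 = -1 := by
  have h1 := jac_prime p 2
  rw [jacobiSym.at_two (Nat.odd_iff.mpr (by omega)), ZMod.χ₈_nat_eq_if_mod_eight] at h1
  rw [if_neg (by omega), if_neg (by omega)] at h1
  push_cast at h1
  exact h1.symm

lemma ff_refl (h : p % 8 = 3) (x : ZMod p) (hx : x ≠ 0) : ff p (2 / x) = -ff p x := by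
  unfold ff
  have e : (2 / x) ^ 2 + 3 * (2 / x) + 2 = x⁻¹ ^ 2 * (2 * (x ^ 2 + 3 * x + 2)) := by
    field_simp
    ring
  rw [e, chi_sq_mul p _ _ (inv_ne_zero hx), map_mul, chi_two p h]
  ring

lemma sum_ff (h : p % 8 = 3) : ∑ x : ZMod p, (if x = 0 then 0 else ff p x) = 0 := by
  have h2 : (2 : ZMod p) ≠ 0 := by
    intro h0
    have := chi_two p h
    rw [h0, MulChar.map_zero] at this
    exact absurd this (by norm_num)
  have h3 : ∑ x : ZMod p, (if x = 0 then 0 else ff p x) =
      -∑ x : ZMod p, (if x = 0 then 0 else ff p x) := by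
    conv_lhs => rw [sum_reflect p 2 h2]
    rw [← Finset.sum_neg_distrib]
    apply Finset.sum_congr rfl
    intro x _
    by_cases hx : x = 0
    · simp [hx]
    · rw [if_neg (div_ne_zero h2 hx), if_neg hx, ff_refl p h x hx]
  omega

lemma S_three_two (h : p % 4 = 3) : S p 3 2 = 0 := by
  have h3 : S p 3 2 = -S p 3 2 := by
    unfold S
    conv_lhs => rw [← Equiv.sum_comp (Equiv.subLeft (-2 : ZMod p))]
    rw [← Finset.sum_neg_distrib]
    apply Finset.sum_congr rfl
    intro x _
    simp only [Equiv.subLeft_apply]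
    rw [← map_mul, ← map_mul, ← chi_neg p h]
    congr 1
    ring
  omega

end prime

section struct

variable (p : ℕ) [Fact p.Prime] (M : ℕ)

/-- the data of a generator of the squares. -/
structure Gen where
  r : ZMod p
  hr1 : r ^ (M + M + 1) = 1
  hinj : ∀ a b : ℕ, a < M + M + 1 → b < M + M + 1 → r ^ a = r ^ b → a = b
  hchi : ∀ a : ℕ, quadraticChar (ZMod p) (r ^ a) = 1

lemma exists_gen (hp : p = 4 * M + 3) : Nonempty (Gen p M) := by
  obtain ⟨g, hg⟩ := IsCyclic.exists_generator (α := (ZMod p)ˣ)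
  have hcard : orderOf g = p - 1 := by
    rw [orderOf_eq_card_of_forall_mem_zpowers hg, Nat.card_eq_fintype_card, ZMod.card_units]
  have hord : orderOf (g ^ 2) = M + M + 1 := by
    rw [orderOf_pow' g (by norm_num), hcard]
    have h1 : p - 1 = 2 * (M + M + 1) := by omega
    rw [h1, Nat.gcd_eq_right (Dvd.intro _ rfl)]
    omega
  refine ⟨⟨((g ^ 2 : (ZMod p)ˣ) : ZMod p), ?_, ?_, ?_⟩⟩
  · rw [← Units.val_pow_eq_pow_val, ← hord, pow_orderOf_eq_one, Units.val_one]
  · intro a b ha hb h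
    rw [← Units.val_pow_eq_pow_val, ← Units.val_pow_eq_pow_val] at h
    have h1 := Units.ext h
    exact pow_injOn_Iio_orderOf (by rw [Set.mem_Iio, hord]; exact ha)
      (by rw [Set.mem_Iio, hord]; exact hb) h1
  · intro a
    rw [Units.val_pow_eq_pow_val, ← pow_mul, mul_comm, pow_mul]
    exact quadraticChar_sq_one' (pow_ne_zero _ g.ne_zero)

variable {p M} (G : Gen p M)

lemma Gen.ne_zero (a : ℕ) : G.r ^ a ≠ 0 := by
  intro h
  have := G.hchi a
  rw [h, MulChar.map_zero] at this
  exact absurd this (by norm_num)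

lemma Gen.ne_neg (hp : p = 4 * M + 3) (a b : ℕ) : G.r ^ a ≠ -G.r ^ b := by
  intro h
  have h1 := G.hchi a
  rw [h, chi_neg p (by omega), G.hchi b] at h1
  exact absurd h1 (by norm_num)

lemma Gen.pow_mod (a : ℕ) : G.r ^ (a % (M + M + 1)) = G.r ^ a := by
  conv_rhs => rw [← Nat.mod_add_div a (M + M + 1)]
  rw [pow_add, pow_mul, G.hr1, one_pow, mul_one]

lemma Gen.pow_sub (i j : Fin (M + M + 1)) :
    G.r ^ (i - j).val = G.r ^ i.val / G.r ^ j.val := by
  rw [eq_div_iff (G.ne_zero _), ← pow_add, ← G.pow_mod]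
  congr 1
  have h1 : (i - j) + j = i := sub_add_cancel i j
  have h2 := congrArg Fin.val h1
  rw [Fin.val_add] at h2
  exact h2

/-- the parametrisation of the nonzero residues. -/
def Gen.par : Fin (M + M + 1) ⊕ Fin (M + M + 1) → ZMod p
  | Sum.inl a => G.r ^ a.val
  | Sum.inr a => -G.r ^ a.val

lemma Gen.par_inj (hp : p = 4 * M + 3) : Function.Injective G.par := by
  intro a b h
  rcases a with a | a <;> rcases b with b | b <;> simp only [Gen.par] at h
  · rw [Fin.ext (G.hinj _ _ a.2 b.2 h)]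
  · exact absurd h (G.ne_neg hp _ _)
  · exact absurd h.symm (G.ne_neg hp _ _)
  · rw [Fin.ext (G.hinj _ _ a.2 b.2 (neg_injective h))]

lemma Gen.par_ne (a : Fin (M + M + 1) ⊕ Fin (M + M + 1)) : G.par a ≠ 0 := by
  rcases a with a | a
  · exact G.ne_zero _
  · exact neg_ne_zero.mpr (G.ne_zero _)

lemma Gen.par_image (hp : p = 4 * M + 3) :
    Finset.univ.image G.par = Finset.univ.filter (fun x : ZMod p => x ≠ 0) := by
  apply Finset.eq_of_subset_of_card_le
  · intro x hx
    obtain ⟨a, _, rfl⟩ := Finset.mem_image.mp hx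
    exact Finset.mem_filter.mpr ⟨Finset.mem_univ _, G.par_ne a⟩
  · rw [Finset.card_image_of_injective _ (G.par_inj hp), Finset.filter_ne',
      Finset.card_erase_of_mem (Finset.mem_univ _), Finset.card_univ, Finset.card_univ,
      ZMod.card, Fintype.card_sum, Fintype.card_fin]
    omega

lemma Gen.sum (hp : p = 4 * M + 3) (F : ZMod p → ℤ) :
    ∑ x : ZMod p, (if x = 0 then 0 else F x) =
      ∑ a : Fin (M + M + 1), (F (G.r ^ a.val) + F (-G.r ^ a.val)) := by
  have h1 : ∑ x : ZMod p, (if x = 0 then 0 else F x) =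
      ∑ x ∈ Finset.univ.filter (fun x : ZMod p => x ≠ 0), F x := by
    rw [Finset.sum_filter]
    apply Finset.sum_congr rfl
    intro x _
    by_cases hx : x = 0 <;> simp [hx]
  rw [h1, ← G.par_image hp, Finset.sum_image (fun a _ b _ h => G.par_inj hp h),
    Fintype.sum_sum_type, Finset.sum_add_distrib]
  rfl

/-- the even and odd parts. -/
noncomputable def Gen.ve (i : Fin (M + M + 1)) : ℤ := ff p (G.r ^ i.val) + ff p (-G.r ^ i.val)

noncomputable def Gen.vo (i : Fin (M + M + 1)) : ℤ := ff p (G.r ^ i.val) - ff p (-G.r ^ i.val)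

lemma Gen.exists_tau (hp : p = 4 * M + 3) (h8 : p % 8 = 3) :
    ∃ τ : Fin (M + M + 1), G.r ^ τ.val = -2 := by
  have h2 : (-2 : ZMod p) ≠ 0 := by
    intro h0
    have := chi_two p h8
    rw [neg_eq_zero.mp h0, MulChar.map_zero] at this
    exact absurd this (by norm_num)
  have h1 : (-2 : ZMod p) ∈ Finset.univ.image G.par := by
    rw [G.par_image hp]
    exact Finset.mem_filter.mpr ⟨Finset.mem_univ _, h2⟩
  obtain ⟨a, _, ha⟩ := Finset.mem_image.mp h1
  rcases a with a | a
  · exact ⟨a, ha⟩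
  · exfalso
    simp only [Gen.par] at ha
    have h3 := chi_neg p (by omega) (2 : ZMod p)
    rw [chi_two p h8, ← ha, chi_neg p (by omega), G.hchi] at h3
    exact absurd h3 (by norm_num)

lemma Gen.tau_sub (h8 : p % 8 = 3) (τ : Fin (M + M + 1))
    (hτ : G.r ^ τ.val = -2) (i : Fin (M + M + 1)) :
    ff p (G.r ^ (τ - i).val) = -ff p (-G.r ^ i.val) ∧
    ff p (-G.r ^ (τ - i).val) = -ff p (G.r ^ i.val) := by
  have h0 := G.ne_zero i.val
  rw [G.pow_sub, hτ]
  constructor
  · rw [← ff_refl p h8 _ (neg_ne_zero.mpr h0)]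
    congr 1
    rw [div_neg, neg_div]
  · rw [← ff_refl p h8 _ h0]
    congr 1
    rw [neg_div, neg_neg]

lemma Gen.ve_sum (hp : p = 4 * M + 3) (h8 : p % 8 = 3) : ∑ i, G.ve i = 0 := by
  rw [← sum_ff p h8, G.sum hp]
  rfl

lemma Gen.vo_sum (hp : p = 4 * M + 3) : ∑ i, G.vo i = 0 := by
  rw [← S_three_two p (by omega)]
  have h1 : S p 3 2 = ∑ x : ZMod p, (if x = 0 then 0 else quadraticChar (ZMod p) x * ff p x) := by
    unfold S
    apply Finset.sum_congr rfl
    intro x _
    by_cases hx : x = 0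
    · simp [hx]
    · rw [if_neg hx]; rfl
  rw [h1, G.sum hp]
  apply Finset.sum_congr rfl
  intro i _
  rw [G.hchi, chi_neg p (by omega), G.hchi]
  unfold Gen.vo
  ring

/-- the reindexing of the truncated matrix. -/
def Gen.par' : Fin (M + M) ⊕ Fin (M + M) → ZMod p :=
  fun a => G.par (Sum.map Fin.succ Fin.succ a)

lemma Gen.par'_val (hp : p = 4 * M + 3) (a : Fin (M + M) ⊕ Fin (M + M)) :
    2 ≤ (G.par' a).val ∧ (G.par' a).val ≤ p - 2 := by
  have : NeZero p := ⟨(Fact.out : p.Prime).ne_zero⟩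
  have h0 : G.par' a ≠ 0 := G.par_ne _
  have h1 : G.par' a ≠ 1 := by
    intro h
    rcases a with a | a <;> simp only [Gen.par', Sum.map_inl, Sum.map_inr, Gen.par] at h
    · have := G.hinj (a.succ : Fin (M + M + 1)).val 0 a.succ.2 (by omega) (by rw [h, pow_zero])
      simp at this
    · have := G.ne_neg hp 0 (a.succ : Fin (M + M + 1)).val
      rw [pow_zero] at this
      exact this h.symm
  have h2 : G.par' a ≠ -1 := by
    intro h
    rcases a with a | a <;> simp only [Gen.par', Sum.map_inl, Sum.map_inr, Gen.par] at h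
    · have := G.ne_neg hp (a.succ : Fin (M + M + 1)).val 0
      rw [pow_zero] at this
      exact this h
    · have := G.hinj (a.succ : Fin (M + M + 1)).val 0 a.succ.2 (by omega)
        (by rw [neg_injective h, pow_zero])
      simp at this
  have hv : (((G.par' a).val : ℕ) : ZMod p) = G.par' a := ZMod.natCast_zmod_val _
  have hlt := ZMod.val_lt (G.par' a)
  have k0 : (G.par' a).val ≠ 0 := by
    intro h; rw [h, Nat.cast_zero] at hv; exact h0 hv.symm
  have k1 : (G.par' a).val ≠ 1 := by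
    intro h; rw [h, Nat.cast_one] at hv; exact h1 hv.symm
  have k2 : (G.par' a).val ≠ p - 1 := by
    intro h
    rw [h, Nat.cast_sub (by omega)] at hv
    simp only [CharP.cast_eq_zero, Nat.cast_one, zero_sub] at hv
    exact h2 hv.symm
  omega

/-- the reindexing map. -/
def Gen.theta (hp : p = 4 * M + 3) (a : Fin (M + M) ⊕ Fin (M + M)) : Fin (p - 3) :=
  ⟨(G.par' a).val - 2, by have := G.par'_val hp a; omega⟩

lemma Gen.theta_cast (hp : p = 4 * M + 3) (a : Fin (M + M) ⊕ Fin (M + M)) :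
    (((G.theta hp a : ℕ) + 2 : ℕ) : ZMod p) = G.par' a := by
  have : NeZero p := ⟨(Fact.out : p.Prime).ne_zero⟩
  have h := G.par'_val hp a
  simp only [Gen.theta]
  rw [show (G.par' a).val - 2 + 2 = (G.par' a).val by omega]
  exact ZMod.natCast_zmod_val _

lemma Gen.theta_bij (hp : p = 4 * M + 3) : Function.Bijective (G.theta hp) := by
  rw [Fintype.bijective_iff_injective_and_card]
  constructor
  · intro a b h
    have h1 : G.par' a = G.par' b := by
      rw [← G.theta_cast hp a, ← G.theta_cast hp b, h]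
    have h2 := G.par_inj hp h1
    exact Function.Injective.sumMap (Fin.succ_injective _) (Fin.succ_injective _) h2
  · simp only [Fintype.card_sum, Fintype.card_fin]
    omega

lemma entry (hp : p = 4 * M + 3) (j k : Fin (p - 3)) (x y : ZMod p)
    (hx : (((j : ℕ) + 2 : ℕ) : ZMod p) = x) (hy : (((k : ℕ) + 2 : ℕ) : ZMod p) = y)
    (hy0 : y ≠ 0) : JD.M 3 2 p j k = ff p (x / y) := by
  simp only [JD.M, Matrix.of_apply]
  rw [jac_prime]
  unfold ff
  have e : x ^ 2 + 3 * x * y + 2 * y ^ 2 = y ^ 2 * ((x / y) ^ 2 + 3 * (x / y) + 2) := by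
    field_simp
  rw [← chi_sq_mul p ((x / y) ^ 2 + 3 * (x / y) + 2) y hy0, ← e, ← hx, ← hy]
  push_cast
  rfl

theorem det_three_two (hp : p = 4 * M + 3) (h8 : p % 8 = 3) :
    ∃ x : ℤ, (JD.M 3 2 p).det = (2 * M + 1) * x ^ 2 := by
  obtain ⟨G⟩ := exists_gen p M hp
  let e := Equiv.ofBijective _ (G.theta_bij hp)
  rw [← det_submatrix_equiv_self e]
  have h1 : (JD.M 3 2 p).submatrix e e =
      fromBlocks (of fun a b : Fin (M + M) => ff p (G.r ^ (a.succ - b.succ : Fin (M + M + 1)).val))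
        (of fun a b => ff p (-G.r ^ (a.succ - b.succ : Fin (M + M + 1)).val))
        (of fun a b => ff p (-G.r ^ (a.succ - b.succ : Fin (M + M + 1)).val))
        (of fun a b => ff p (G.r ^ (a.succ - b.succ : Fin (M + M + 1)).val)) := by
    ext a b
    rw [submatrix_apply]
    rw [entry hp (e a) (e b) (G.par' a) (G.par' b) (G.theta_cast hp a) (G.theta_cast hp b)
      (G.par_ne _)]
    rcases a with a | a <;> rcases b with b | b
    · simp only [fromBlocks_apply₁₁, of_apply, Gen.par', Gen.par, Sum.map_inl]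
      rw [G.pow_sub]
    · simp only [fromBlocks_apply₁₂, of_apply, Gen.par', Gen.par, Sum.map_inl, Sum.map_inr]
      rw [G.pow_sub, div_neg]
    · simp only [fromBlocks_apply₂₁, of_apply, Gen.par', Gen.par, Sum.map_inl, Sum.map_inr]
      rw [G.pow_sub, neg_div]
    · simp only [fromBlocks_apply₂₂, of_apply, Gen.par', Gen.par, Sum.map_inr]
      rw [G.pow_sub, neg_div_neg_eq]
  rw [h1, det_sym_blocks]
  obtain ⟨τ, hτ⟩ := G.exists_tau hp h8
  have hE : (of (fun a b : Fin (M + M) => ff p (G.r ^ (a.succ - b.succ : Fin (M + M + 1)).val)) +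
      of (fun a b : Fin (M + M) => ff p (-G.r ^ (a.succ - b.succ : Fin (M + M + 1)).val))).det =
      cm M G.ve := by
    unfold cm
    congr 1
  have hO : (of (fun a b : Fin (M + M) => ff p (G.r ^ (a.succ - b.succ : Fin (M + M + 1)).val)) -
      of (fun a b : Fin (M + M) => ff p (-G.r ^ (a.succ - b.succ : Fin (M + M + 1)).val))).det =
      cm M G.vo := by
    unfold cm
    congr 1
  rw [hE, hO]
  obtain ⟨y, hy⟩ := cm_skew M G.ve (G.ve_sum hp h8) τ (by
    intro x
    have h := G.tau_sub h8 τ hτ x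
    unfold Gen.ve
    rw [h.1, h.2]; ring)
  obtain ⟨c, hc⟩ := cm_sym M G.vo (G.vo_sum hp) τ (by
    intro x
    have h := G.tau_sub h8 τ hτ x
    unfold Gen.vo
    rw [h.1, h.2]; ring)
  refine ⟨y * c, ?_⟩
  rw [hy, hc]
  ring

end struct

/-- a positive integer `≡ 3 (mod 4)` has a prime factor `≡ 3 (mod 4)`. -/
lemma exists_prime_three (n : ℕ) (h : n % 4 = 3) : ∃ p : ℕ, p.Prime ∧ p ∣ n ∧ p % 4 = 3 := by
  induction n using Nat.recOnMul with
  | zero => omega
  | one => omega
  | prime p hp => exact ⟨p, hp, dvd_refl p, h⟩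
  | mul a b ha hb =>
    have h1 : a % 4 = 3 ∨ b % 4 = 3 := by
      by_contra hcon
      push Not at hcon
      have h2 := Nat.mul_mod a b 4
      have ha4 := Nat.mod_lt a (show 0 < 4 by norm_num)
      have hb4 := Nat.mod_lt b (show 0 < 4 by norm_num)
      rw [h] at h2
      generalize a % 4 = u at *
      generalize b % 4 = v at *
      interval_cases u <;> interval_cases v <;> omega
    rcases h1 with h1 | h1
    · obtain ⟨p, hp, hpa, h2⟩ := ha h1
      exact ⟨p, hp, Dvd.dvd.mul_right hpa b, h2⟩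
    · obtain ⟨p, hp, hpb, h2⟩ := hb h1
      exact ⟨p, hp, Dvd.dvd.mul_left hpb a, h2⟩

theorem main_three_two (n : ℕ) (hn : n % 8 = 3) :
    ∃ x : ℤ, 2 * (M 3 2 n).det = (Nat.totient n : ℤ) * x ^ 2 := by
  by_cases hsq : Squarefree n
  · obtain ⟨p, hp, hpn, hp4⟩ := exists_prime_three n (by omega)
    obtain ⟨m, rfl⟩ := hpn
    have : Fact p.Prime := ⟨hp⟩
    have hodd : Odd (p * m) := Nat.odd_iff.mpr (by omega)
    have hmo : Odd m := (Nat.odd_mul.mp hodd).2
    have hpm : ¬ p ∣ m := by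
      intro h
      have := hsq p (Nat.mul_dvd_mul_left p h)
      exact hp.one_lt.ne' (Nat.isUnit_iff.mp this)
    by_cases hm1 : m = 1
    · subst hm1
      rw [mul_one] at hn ⊢
      have hpM : p = 4 * (p / 4) + 3 := by omega
      obtain ⟨x, hx⟩ := det_three_two (p := p) (M := p / 4) hpM hn
      refine ⟨x, ?_⟩
      rw [hx, Nat.totient_prime hp]
      have h1 : ((p - 1 : ℕ) : ℤ) = 2 * (2 * ((p / 4 : ℕ) : ℤ) + 1) := by omega
      rw [h1]; ring
    · have hm3 : 3 ≤ m := by
        have h1 := Nat.odd_iff.mp hmo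
        omega
      refine ⟨0, ?_⟩
      have h := det_composite 3 2 p m (by omega) hm3 hpm (by
        push_cast; exact S_three_two p hp4)
      rw [h]; ring
  · rw [Nat.squarefree_iff_prime_squarefree] at hsq
    push Not at hsq
    obtain ⟨q, hq, r, hr⟩ := hsq
    have hr0 : 0 < r := by
      rcases Nat.eq_zero_or_pos r with h | h
      · rw [h] at hr; omega
      · exact h
    have hq3 : 3 ≤ q := by
      have h2 := hq.two_le
      have h3 : q ≠ 2 := by
        rintro rfl
        omega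
      omega
    rw [mul_assoc] at hr
    refine ⟨0, ?_⟩
    rw [det_square _ _ n q r hr hq3 hr0]; ring

end Pool.Agent.Q280.JD
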